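import Pool.Agent.PLY.V.Main
import Pool.Agent.PLY.Ch.Defs

/-!
Project PLY (MP_8c6f77_pr, honeycomb lattice, polynomial bound), module V/Mz (helper27): THE GIANT ONE-SIDED BELOW THE LEVEL `2 ^ y`.

`mz σ i g y k` = mass of the triples `(l, s, c)`:
* the mirror pair (part of `l` up to its first renewal `≥ h s + d σ`, word `s` of class `g`) is a pair `gp σ` (short leg `s`);
* `c` = a block of height `≥ 2 ^ k` put on `s`, the leg `s ++ [c]` does not meet the leg `l`, and it is one-sided at all the renewals of `l`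
  below the level `2 ^ y` (levels counted from the fold; above this level `c` may come back on the other side);
* `l` is followed up to its first renewal `> i` (`2 ^ y ≤ i + 1`).

`mz_le`: `U (2 ^ y) * mz σ i g y k ≤ C * ρ₁ ^ (y - g) * ρ₂ ^ (k - y)` for `g ≤ y ≤ k`.

PROOF. Cut `l` at its first renewal `≥ 2 ^ y` (`tsum_pre`); let `e` be its last block, `l = l' ++ [e]`.
(A) `h s + d σ ≤ h l'`: lower pair `(u, s)`, giant `c`, continuation `r` of `u`, `l' = u ++ r` (`IZ`; trivial bound and LEMMA G as in Inner.lean), then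
`pairs_le`. (B) `h l' < h s + d σ`: `(l' ++ [e], s)` is a first passage pair, last block of size `≥ 2 ^ (y - 1)`: `TK`, times the mass of `c`.
-/

namespace Pool.Agent.HEP

open scoped ENNReal
open Finset

theorem Alph.FR_iff {A : Alph} {i : ℕ} {l : List A.B} : A.FR i l ↔ A.FP (i + 1) l := by
  constructor
  · rintro ⟨P, c, e, h1, h2⟩
    rw [← e, A.FP_snoc]
    omega
  · intro h
    rcases List.eq_nil_or_concat l with hl | ⟨P, c, hl⟩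
    · subst hl
      exact absurd (A.FP_nil.1 h) (Nat.succ_ne_zero i)
    · rw [List.concat_eq_append] at hl
      subst hl
      have h1 := A.FP_snoc.1 h
      exact ⟨P, c, rfl, by omega, by omega⟩

theorem Alph.pre_pre {A : Alph} {k k' : ℕ} (hk : k ≤ k') {l : List A.B} (hl : k' ≤ A.h l) :
    A.pre k (A.pre k' l) = A.pre k l := by
  obtain ⟨h1, r, hr⟩ := A.pre_spec hl
  obtain ⟨h2, r', hr'⟩ := A.pre_spec (hk.trans h1.1)
  have h3 : l = A.pre k (A.pre k' l) ++ (r' ++ r) := by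
    rw [← List.append_assoc, ← hr', ← hr]
  calc A.pre k (A.pre k' l) = A.pre k (A.pre k (A.pre k' l) ++ (r' ++ r)) := (A.pre_app h2 _).symm
    _ = A.pre k l := by rw [← h3]

namespace Sys

variable {S : Sys}

/-- The condition of `mz`. -/
def mzc (S : Sys) (σ : Bool) (g y k : ℕ) (l s : List S.B) (c : S.B) : Prop :=
  S.gp σ (S.pre (S.h s + d σ) l) s ∧ Nat.size (S.h s) = g ∧ 2 ^ k ≤ S.ht c ∧ S.av σ l (s ++ [c]) ∧
    ∀ l1 r, l = l1 ++ r → S.h l1 < 2 ^ y → S.os (!σ) 1 (s ++ [c]) l1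

/-- Mirror pair, giant on the short leg, one-sided below the level `2 ^ y`, free leg up to its first renewal `> i`. -/
noncomputable def mz (S : Sys) (σ : Bool) (i g y k : ℕ) : ℝ≥0∞ :=
  ∑' l, ∑' s, ∑' c, ind (S.mzc σ g y k l s c) * (S.rg i l * (S.w s * S.wt c))

/-- The inner sum. -/
noncomputable def IZ (S : Sys) (σ : Bool) (l u : List S.B) (N k : ℕ) : ℝ≥0∞ :=
  ∑' c, ∑' r, ind (S.gp σ (l ++ [c]) (u ++ r) ∧ S.h (u ++ r) ≤ N ∧ 2 ^ k ≤ S.ht c) *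
    (S.wt c * (S.w r * S.Lam (N - S.h (u ++ r))))

lemma LamK_le {wd : S.B → ℕ} {K ρ₁ ρ₂ : ℝ≥0∞} (hH : S.Hit wd K ρ₁ ρ₂) (hR : S.Rho K ρ₂) {y k : ℕ} (hyk : y ≤ k) :
    S.U (2 ^ y) * ∑' c, ind (2 ^ k ≤ S.ht c) * S.wt c ≤ K * K * ρ₂ ^ (k - y) := by
  have h1 : ∑' c, ind (2 ^ k ≤ S.ht c) * S.wt c ≤ ∑' c, ind (2 ^ k ≤ S.sz wd c) * S.wt c :=
    ENNReal.tsum_le_tsum fun c => mul_le_mul' (ind_mono fun h => h.trans (le_max_left _ _)) le_rfl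
  calc S.U (2 ^ y) * ∑' c, ind (2 ^ k ≤ S.ht c) * S.wt c
      ≤ (K * ρ₂ ^ (k - y) * S.U (2 ^ k)) * ∑' c, ind (2 ^ k ≤ S.sz wd c) * S.wt c := mul_le_mul' (hR y k hyk) h1
    _ = K * ρ₂ ^ (k - y) * (S.U (2 ^ k) * ∑' c, ind (2 ^ k ≤ S.sz wd c) * S.wt c) := by ring
    _ ≤ K * ρ₂ ^ (k - y) * K := mul_le_mul' le_rfl (hH.tail k)
    _ = K * K * ρ₂ ^ (k - y) := by ring

theorem IZ_triv (σ : Bool) (l u : List S.B) {N k : ℕ} (hu : S.h u ≤ N) :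
    S.IZ σ l u N k ≤ ∑' c, ind (2 ^ k ≤ S.ht c) * S.wt c := by
  unfold IZ
  refine ENNReal.tsum_le_tsum fun c => ?_
  calc ∑' r, ind (S.gp σ (l ++ [c]) (u ++ r) ∧ S.h (u ++ r) ≤ N ∧ 2 ^ k ≤ S.ht c) *
        (S.wt c * (S.w r * S.Lam (N - S.h (u ++ r))))
      ≤ ∑' r, (ind (2 ^ k ≤ S.ht c) * S.wt c) * (ind (S.h r ≤ N - S.h u) * (S.w r * S.Lam (N - S.h u - S.h r))) := by
        refine ENNReal.tsum_le_tsum fun r => ?_
        by_cases hP : S.gp σ (l ++ [c]) (u ++ r) ∧ S.h (u ++ r) ≤ N ∧ 2 ^ k ≤ S.ht c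
        · have h1 := hP.2.1
          rw [S.h_append] at h1
          rw [ind_true hP, ind_true hP.2.2, ind_true (by omega : S.h r ≤ N - S.h u), S.h_append,
            show N - (S.h u + S.h r) = N - S.h u - S.h r by omega]
          exact le_of_eq (by ring)
        · rw [ind_false hP, zero_mul]
          exact bot_le
    _ = ind (2 ^ k ≤ S.ht c) * S.wt c := by
        rw [ENNReal.tsum_mul_left, S.tsum_w_Lam (N - S.h u), mul_one]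

theorem IZ_cut (σ : Bool) (l u : List S.B) {N N1 k : ℕ} (hN : N1 ≤ N) (hu : S.h u ≤ N1) :
    S.IZ σ l u N k ≤ S.IZ σ l u N1 k := by
  unfold IZ
  refine ENNReal.tsum_le_tsum fun c => ?_
  have h1 := S.cont_le (m := N1 - S.h u) (N := N - S.h u) (by omega)
    (fun r => ind (S.gp σ (l ++ [c]) (u ++ r) ∧ 2 ^ k ≤ S.ht c) * S.wt c)
  have h2 : ∑' r, ind (S.gp σ (l ++ [c]) (u ++ r) ∧ S.h (u ++ r) ≤ N ∧ 2 ^ k ≤ S.ht c) *
        (S.wt c * (S.w r * S.Lam (N - S.h (u ++ r)))) ≤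
      ∑' r, ind (S.h r ≤ N - S.h u) * ((ind (S.gp σ (l ++ [c]) (u ++ S.cut (N1 - S.h u) r) ∧ 2 ^ k ≤ S.ht c) * S.wt c) *
        (S.w r * S.Lam (N - S.h u - S.h r))) := by
    refine ENNReal.tsum_le_tsum fun r => ?_
    by_cases hP : S.gp σ (l ++ [c]) (u ++ r) ∧ S.h (u ++ r) ≤ N ∧ 2 ^ k ≤ S.ht c
    · have h3 := hP.2.1
      rw [S.h_append] at h3
      obtain ⟨r', hr'⟩ := S.cut_prefix (N1 - S.h u) r
      have h4 : S.gp σ (l ++ [c]) (u ++ S.cut (N1 - S.h u) r) := by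
        have h5 := hP.1
        rw [hr', ← List.append_assoc] at h5
        have h6 := gp_pre h5
        exact h6
      rw [ind_true hP, ind_true (by omega : S.h r ≤ N - S.h u), ind_true ⟨h4, hP.2.2⟩, S.h_append,
        show N - (S.h u + S.h r) = N - S.h u - S.h r by omega]
      exact le_of_eq (by ring)
    · rw [ind_false hP, zero_mul]
      exact bot_le
  refine h2.trans (h1.trans ?_)
  refine ENNReal.tsum_le_tsum fun r => ?_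
  by_cases hP : S.h r ≤ N1 - S.h u
  · by_cases hQ : S.gp σ (l ++ [c]) (u ++ r) ∧ 2 ^ k ≤ S.ht c
    · rw [ind_true hP, ind_true hQ, ind_true ⟨hQ.1, (by rw [S.h_append]; omega : S.h (u ++ r) ≤ N1), hQ.2⟩, S.h_append,
        show N1 - (S.h u + S.h r) = N1 - S.h u - S.h r by omega]
      exact le_of_eq (by ring)
    · rw [ind_false hQ, zero_mul, zero_mul, mul_zero]
      exact bot_le
  · rw [ind_false hP, zero_mul]
    exact bot_le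

theorem IZ_hit {wd : S.B → ℕ} {K ρ₁ ρ₂ : ℝ≥0∞} (hH : S.Hit wd K ρ₁ ρ₂) (hb : Antitone S.b) {σ : Bool}
    {l u : List S.B} {i y k : ℕ} (hij : i + 1 ≤ y) (hjk : y ≤ k) (hl : S.h l < 2 ^ i) (hu : S.h l ≤ S.h u)
    (hd : S.ds σ l u ≤ 2 ^ i) : S.U (2 ^ y) * S.IZ σ l u (2 ^ y - 1) k ≤ 2 * K * ρ₁ ^ (y - 1 - i) * ρ₂ ^ (k - (y - 1)) := by
  obtain ⟨m, rfl⟩ : ∃ m, y = m + 1 := ⟨y - 1, by omega⟩
  have e0 : m + 1 - 1 = m := by omega
  rw [e0]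
  have him : i ≤ m := by omega
  have hp : 2 ^ i ≤ 2 ^ m := Nat.pow_le_pow_right (by norm_num) him
  have hp2 : 2 ^ (m + 1) = 2 * 2 ^ m := by rw [pow_succ]; ring
  have hN : S.h l + 2 ^ m ≤ 2 ^ (m + 1) - 1 := by rw [hp2]; omega
  have huN : S.h u ≤ S.h l + 2 ^ m := by
    have h1 : S.h u - S.h l ≤ 2 ^ i := le_trans (le_max_left _ _) hd
    omega
  have h2 := hH.hit σ l u i m k him (by omega) hu hd
  have h3 : S.IZ σ l u (2 ^ (m + 1) - 1) k ≤ ∑' c, ∑' t, ind (S.gp σ (l ++ [c]) (u ++ t) ∧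
      S.h (u ++ t) ≤ S.h l + 2 ^ m ∧ 2 ^ m ≤ S.ht c ∧ 2 ^ k ≤ S.sz wd c) *
        (S.wt c * (S.w t * S.Lam (S.h l + 2 ^ m - S.h (u ++ t)))) := by
    refine (IZ_cut σ l u hN huN).trans ?_
    unfold IZ
    refine ENNReal.tsum_le_tsum fun c => ENNReal.tsum_le_tsum fun t => mul_le_mul' (ind_mono ?_) le_rfl
    rintro ⟨h4, h5, h6⟩
    exact ⟨h4, h5, (Nat.pow_le_pow_right (by norm_num) (by omega : m ≤ k)).trans h6, h6.trans (le_max_left _ _)⟩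
  have h4 : S.U (2 ^ (m + 1)) ≤ 2 * S.U (2 ^ m) := by
    rw [hp2]
    exact S.U_two hb (2 ^ m)
  calc S.U (2 ^ (m + 1)) * S.IZ σ l u (2 ^ (m + 1) - 1) k ≤ 2 * S.U (2 ^ m) * _ := mul_le_mul' h4 h3
    _ = 2 * (S.U (2 ^ m) * _) := by rw [mul_assoc]
    _ ≤ 2 * (K * ρ₁ ^ (m - i) * ρ₂ ^ (k - m)) := mul_le_mul' le_rfl h2
    _ = 2 * K * ρ₁ ^ (m - i) * ρ₂ ^ (k - m) := by ring

theorem comb {I C ρ₁ : ℝ≥0∞} {g j D : ℕ} (hgj : g ≤ j) (h0 : I ≤ C)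
    (h : ∀ i, g ≤ i → i ≤ j → D ≤ 2 ^ i → I ≤ C * ρ₁ ^ (j - i)) : I ≤ C * wg ρ₁ g j D := by
  by_cases hd : D ≤ 2 ^ g
  · refine (h g le_rfl hgj hd).trans (mul_le_mul' le_rfl ?_)
    unfold wg
    exact le_self_add
  have hex : ∃ i, D ≤ 2 ^ i := ⟨D, (Nat.lt_two_pow_self).le⟩
  classical
  set i0 := Nat.find hex with hi0
  have h1 : D ≤ 2 ^ i0 := Nat.find_spec hex
  have h2 : g < i0 := by
    by_contra h3
    push Not at h3
    exact hd (h1.trans (Nat.pow_le_pow_right (by norm_num) h3))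
  have h3 : 2 ^ (i0 - 1) < D := by
    have := Nat.find_min hex (m := i0 - 1) (by omega)
    omega
  by_cases h4 : i0 ≤ j
  · refine (h i0 h2.le h4 h1).trans (mul_le_mul' le_rfl ?_)
    unfold wg
    refine le_trans ?_ (le_add_self)
    refine le_trans ?_ (Finset.single_le_sum (f := fun i => ρ₁ ^ (j - i) * ind (2 ^ (i - 1) < D))
      (fun _ _ => bot_le) (Finset.mem_Ioc.2 ⟨h2, h4⟩))
    rw [ind_true h3, mul_one]
  · push Not at h4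
    refine h0.trans ((le_of_eq (mul_one C).symm).trans (mul_le_mul' le_rfl ?_))
    unfold wg
    rcases Nat.eq_or_lt_of_le hgj with h5 | h5
    · rw [h5, Nat.sub_self, pow_zero]
      exact le_self_add
    · refine le_trans ?_ (le_add_self)
      refine le_trans ?_ (Finset.single_le_sum (f := fun i => ρ₁ ^ (j - i) * ind (2 ^ (i - 1) < D))
        (fun _ _ => bot_le) (Finset.mem_Ioc.2 ⟨h5, le_rfl⟩))
      have h6 : 2 ^ (j - 1) < D :=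
        lt_of_le_of_lt (Nat.pow_le_pow_right (by norm_num) (by omega)) h3
      rw [ind_true h6, mul_one, Nat.sub_self, pow_zero]

/-- The constant of `IZ_le`. -/
noncomputable def KZ (K ρ₁ : ℝ≥0∞) : ℝ≥0∞ := 2 * K * K * ρ₁⁻¹

theorem IZ_le {wd : S.B → ℕ} {K ρ₁ ρ₂ : ℝ≥0∞} (hH : S.Hit wd K ρ₁ ρ₂) (hR : S.Rho K ρ₂) (hb : Antitone S.b) (hK : 1 ≤ K)
    (h10 : ρ₁ ≠ 0) (h11 : ρ₁ ≤ 1) (h21 : ρ₂ ≤ 1) {σ : Bool} {l u : List S.B} {g y k : ℕ} (hgy : g ≤ y) (hyk : y ≤ k)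
    (hl : Nat.size (S.h l) = g) (hu : S.h l ≤ S.h u) (hu2 : S.h u ≤ 2 ^ y - 1) :
    S.U (2 ^ y) * S.IZ σ l u (2 ^ y - 1) k ≤ KZ K ρ₁ * ρ₂ ^ (k - y) * wg ρ₁ g y (S.ds σ l u) := by
  have h1t : ρ₁ ≠ ⊤ := ne_top_of_le_ne_top ENNReal.one_ne_top h11
  have h2 : ρ₁⁻¹ * ρ₁ = 1 := ENNReal.inv_mul_cancel h10 h1t
  have h3 : 1 ≤ ρ₁⁻¹ := ENNReal.one_le_inv.2 h11
  have h4 : S.U (2 ^ y) * S.IZ σ l u (2 ^ y - 1) k ≤ K * K * ρ₂ ^ (k - y) :=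
    (mul_le_mul' le_rfl (IZ_triv σ l u hu2)).trans (LamK_le hH hR hyk)
  have h5 : K * K * ρ₂ ^ (k - y) ≤ KZ K ρ₁ * ρ₂ ^ (k - y) := by
    unfold KZ
    calc K * K * ρ₂ ^ (k - y) = 1 * K * K * 1 * ρ₂ ^ (k - y) := by ring
      _ ≤ 2 * K * K * ρ₁⁻¹ * ρ₂ ^ (k - y) := by gcongr; norm_num
  refine comb hgy (h4.trans h5) fun i hgi hiy hd => ?_
  have hlt : S.h l < 2 ^ i := lt_of_lt_of_le (sizeV_lt hl) (Nat.pow_le_pow_right (by norm_num) hgi)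
  rcases Nat.lt_or_ge i y with h6 | h6
  · refine (IZ_hit hH hb h6 hyk hlt hu hd).trans ?_
    have h7 : ρ₂ ^ (k - (y - 1)) ≤ ρ₂ ^ (k - y) := pow_le_pow_right_of_le_one' h21 (by omega)
    have e1 : y - i = (y - 1 - i) + 1 := by omega
    unfold KZ
    calc 2 * K * ρ₁ ^ (y - 1 - i) * ρ₂ ^ (k - (y - 1)) ≤ 2 * K * ρ₁ ^ (y - 1 - i) * ρ₂ ^ (k - y) := mul_le_mul' le_rfl h7
      _ = 2 * K * 1 * (ρ₁⁻¹ * ρ₁) * ρ₁ ^ (y - 1 - i) * ρ₂ ^ (k - y) := by rw [h2]; ring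
      _ ≤ 2 * K * K * (ρ₁⁻¹ * ρ₁) * ρ₁ ^ (y - 1 - i) * ρ₂ ^ (k - y) := by gcongr
      _ = 2 * K * K * ρ₁⁻¹ * ρ₂ ^ (k - y) * ρ₁ ^ (y - i) := by rw [e1, pow_succ]; ring
  · have e1 : y - i = 0 := by omega
    rw [e1, pow_zero, mul_one]
    exact h4.trans h5

/-- The sum cut at the level `2 ^ y`. -/
noncomputable def mr (S : Sys) (σ : Bool) (g y k : ℕ) : ℝ≥0∞ :=
  ∑' l, ind (S.FP (2 ^ y) l) * ((∑' s, ∑' c, ind (S.mzc σ g y k l s c) * (S.w s * S.wt c)) * S.w l)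

lemma mzc_pre {σ : Bool} {g y k : ℕ} (hgy : g ≤ y) {l s : List S.B} {c : S.B} (hl : 2 ^ y ≤ S.h l)
    (h : S.mzc σ g y k l s c) : S.mzc σ g y k (S.pre (2 ^ y) l) s c := by
  obtain ⟨h1, h2, h3, h4, h5⟩ := h
  obtain ⟨h6, r, hr⟩ := S.pre_spec hl
  have h7 : S.h s + d σ ≤ 2 ^ y := by
    have h8 := sizeV_lt h2
    have h9 : 2 ^ g ≤ 2 ^ y := Nat.pow_le_pow_right (by norm_num) hgy
    have := d_le σ
    omega
  refine ⟨?_, h2, h3, ?_, ?_⟩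
  · rw [Alph.pre_pre h7 hl]
    exact h1
  · have h8 : S.av σ (S.pre (2 ^ y) l ++ r) ((s ++ [c]) ++ []) := by rw [← hr, List.append_nil]; exact h4
    exact S.av_pre h8
  · intro l1 r' e h8
    exact h5 l1 (r' ++ r) (by rw [← List.append_assoc, ← e, ← hr]) h8

theorem mz_le_mr (σ : Bool) {i g y k : ℕ} (hgy : g ≤ y) (hi : 2 ^ y ≤ i + 1) : S.mz σ i g y k ≤ S.mr σ g y k := by
  unfold mr
  rw [← S.tsum_pre hi (fun l => ∑' s, ∑' c, ind (S.mzc σ g y k l s c) * (S.w s * S.wt c))]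
  unfold mz
  refine ENNReal.tsum_le_tsum fun l => ?_
  have e1 : ∑' s, ∑' c, ind (S.mzc σ g y k l s c) * (S.rg i l * (S.w s * S.wt c)) =
      ind (S.FP (i + 1) l) * ((∑' s, ∑' c, ind (S.mzc σ g y k l s c) * (S.w s * S.wt c)) * S.w l) := by
    have e2 : S.rg i l = ind (S.FP (i + 1) l) * S.w l := by
      unfold Alph.rg
      rw [ind_congr Alph.FR_iff]
    rw [e2, ← ENNReal.tsum_mul_right, ← ENNReal.tsum_mul_left]
    refine tsum_congr fun s => ?_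
    rw [← ENNReal.tsum_mul_right, ← ENNReal.tsum_mul_left]
    refine tsum_congr fun c => ?_
    ring
  rw [e1]
  by_cases hF : S.FP (i + 1) l
  · refine mul_le_mul' le_rfl (mul_le_mul' ?_ le_rfl)
    refine ENNReal.tsum_le_tsum fun s => ENNReal.tsum_le_tsum fun c => mul_le_mul' (ind_mono ?_) le_rfl
    exact mzc_pre hgy (hi.trans hF.1)
  · rw [ind_false hF, zero_mul, zero_mul]

/-- Case (A). -/
noncomputable def mzA (S : Sys) (σ : Bool) (g y k : ℕ) : ℝ≥0∞ :=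
  ∑' s, ∑' l, ∑' e, ∑' c, ind (S.FP (2 ^ y) (l ++ [e]) ∧ S.gp σ (S.pre (S.h s + d σ) l) s ∧ S.h s + d σ ≤ S.h l ∧
    Nat.size (S.h s) = g ∧ S.gp (!σ) (s ++ [c]) l ∧ 2 ^ k ≤ S.ht c) * (S.w l * S.wt e * (S.w s * S.wt c))

/-- Case (B). -/
noncomputable def mzB (S : Sys) (wd : S.B → ℕ) (σ : Bool) (g y k : ℕ) : ℝ≥0∞ :=
  ∑' l, ∑' e, ∑' s, ∑' c, ind ((S.gp σ (l ++ [e]) s ∧ S.FP (S.h s + d σ) (l ++ [e]) ∧ Nat.size (S.h s) = g ∧
    (g < y → 2 ^ (y - 1) ≤ S.lsz wd (l ++ [e]))) ∧ 2 ^ k ≤ S.ht c) * (S.w l * S.wt e * (S.w s * S.wt c))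

theorem mr_le (wd : S.B → ℕ) (σ : Bool) {g y k : ℕ} (hgy : g ≤ y) (hyk : y ≤ k) :
    S.mr σ g y k ≤ S.mzA σ g y k + S.mzB wd σ g y k := by
  have hmA : S.mzA σ g y k = ∑' l, ∑' e, ∑' s, ∑' c, ind (S.FP (2 ^ y) (l ++ [e]) ∧ S.gp σ (S.pre (S.h s + d σ) l) s ∧
      S.h s + d σ ≤ S.h l ∧ Nat.size (S.h s) = g ∧ S.gp (!σ) (s ++ [c]) l ∧ 2 ^ k ≤ S.ht c) *
        (S.w l * S.wt e * (S.w s * S.wt c)) := by
    unfold mzA
    rw [ENNReal.tsum_comm]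
    exact tsum_congr fun l => ENNReal.tsum_comm
  rw [hmA]
  unfold mr mzB
  rw [Alph.tsum_snoc]
  have e0 : ¬ S.FP (2 ^ y) ([] : List S.B) := by
    intro h
    have := S.FP_nil.1 h
    have := Nat.one_le_two_pow (n := y)
    omega
  rw [ind_false e0, zero_mul, zero_add, ← ENNReal.tsum_add]
  refine ENNReal.tsum_le_tsum fun l => ?_
  rw [← ENNReal.tsum_add]
  refine ENNReal.tsum_le_tsum fun e => ?_
  by_cases hF : S.FP (2 ^ y) (l ++ [e])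
  · rw [ind_true hF, one_mul, ← ENNReal.tsum_mul_right, ← ENNReal.tsum_add]
    refine ENNReal.tsum_le_tsum fun s => ?_
    rw [← ENNReal.tsum_mul_right, ← ENNReal.tsum_add]
    refine ENNReal.tsum_le_tsum fun c => ?_
    rw [← add_mul]
    by_cases hP : S.mzc σ g y k (l ++ [e]) s c
    · rw [ind_true hP, one_mul, w_snoc]
      obtain ⟨h1, h2, h3, h4, h5⟩ := hP
      have hF' := S.FP_snoc.1 hF
      have hs := sizeV_lt h2
      have hgy2 : 2 ^ g ≤ 2 ^ y := Nat.pow_le_pow_right (by norm_num) hgy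
      have hyk2 : 2 ^ y ≤ 2 ^ k := Nat.pow_le_pow_right (by norm_num) hyk
      have hd1 := d_le σ
      have hd2 := d_le (!σ)
      by_cases hA : S.h s + d σ ≤ S.h l
      · have h6 : S.gp σ (S.pre (S.h s + d σ) l) s := by
          obtain ⟨h7, r, hr⟩ := S.pre_spec hA
          have h8 : l ++ [e] = S.pre (S.h s + d σ) l ++ (r ++ [e]) := by rw [← List.append_assoc, ← hr]
          rw [h8, S.pre_app h7] at h1
          exact h1
        have h7 : S.gp (!σ) (s ++ [c]) l := by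
          refine ⟨?_, ?_, ?_⟩
          · have h8 : S.av σ (l ++ [e]) ((s ++ [c]) ++ []) := by rw [List.append_nil]; exact h4
            have h9 := S.av_pre h8
            cases σ
            · exact h9
            · exact h9
          · rw [h_snoc]
            omega
          · intro l1 r e1
            refine h5 l1 (r ++ [e]) (by rw [← List.append_assoc, ← e1]) ?_
            have : S.h l = S.h l1 + S.h r := by rw [e1, S.h_append]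
            omega
        rw [ind_true (p := S.FP (2 ^ y) (l ++ [e]) ∧ S.gp σ (S.pre (S.h s + d σ) l) s ∧ S.h s + d σ ≤ S.h l ∧
          Nat.size (S.h s) = g ∧ S.gp (!σ) (s ++ [c]) l ∧ 2 ^ k ≤ S.ht c) ⟨hF, h6, hA, h2, h7, h3⟩]
        calc S.w s * S.wt c * (S.w l * S.wt e) = 1 * (S.w l * S.wt e * (S.w s * S.wt c)) := by ring
          _ ≤ _ := mul_le_mul' le_self_add le_rfl
      · have h6 : S.FP (S.h s + d σ) (l ++ [e]) := by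
          rw [S.FP_snoc]
          omega
        have h7 : S.pre (S.h s + d σ) (l ++ [e]) = l ++ [e] := by
          have h8 := S.pre_app h6 []
          rwa [List.append_nil] at h8
        rw [h7] at h1
        have h8 : g < y → 2 ^ (y - 1) ≤ S.lsz wd (l ++ [e]) := by
          intro h9
          rw [lsz_snoc]
          have h10 : 2 ^ g ≤ 2 ^ (y - 1) := Nat.pow_le_pow_right (by norm_num) (by omega)
          have h11 : 2 ^ y = 2 * 2 ^ (y - 1) := by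
            obtain ⟨m, rfl⟩ : ∃ m, y = m + 1 := ⟨y - 1, by omega⟩
            have e1 : m + 1 - 1 = m := by omega
            rw [e1, pow_succ]; ring
          have h12 : S.ht e ≤ S.sz wd e := le_max_left _ _
          omega
        rw [ind_true (p := (S.gp σ (l ++ [e]) s ∧ S.FP (S.h s + d σ) (l ++ [e]) ∧ Nat.size (S.h s) = g ∧
          (g < y → 2 ^ (y - 1) ≤ S.lsz wd (l ++ [e]))) ∧ 2 ^ k ≤ S.ht c) ⟨⟨h1, h6, h2, h8⟩, h3⟩]
        calc S.w s * S.wt c * (S.w l * S.wt e) = 1 * (S.w l * S.wt e * (S.w s * S.wt c)) := by ring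
          _ ≤ _ := mul_le_mul' le_add_self le_rfl
    · rw [ind_false hP, zero_mul, zero_mul]
      exact bot_le
  · rw [ind_false hF, zero_mul]
    exact bot_le

theorem mzB_le (wd : S.B → ℕ) (σ : Bool) {g y k : ℕ} :
    S.mzB wd σ g y k ≤ (if g < y then S.TKs wd σ g (y - 1) else S.TAs σ g) * ∑' c, ind (2 ^ k ≤ S.ht c) * S.wt c := by
  have h1 : S.mzB wd σ g y k = (∑' l, ∑' e, ∑' s, ind (S.gp σ (l ++ [e]) s ∧ S.FP (S.h s + d σ) (l ++ [e]) ∧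
      Nat.size (S.h s) = g ∧ (g < y → 2 ^ (y - 1) ≤ S.lsz wd (l ++ [e]))) * (S.w (l ++ [e]) * S.w s)) *
        ∑' c, ind (2 ^ k ≤ S.ht c) * S.wt c := by
    unfold mzB
    rw [← ENNReal.tsum_mul_right]
    refine tsum_congr fun l => ?_
    rw [← ENNReal.tsum_mul_right]
    refine tsum_congr fun e => ?_
    rw [← ENNReal.tsum_mul_right]
    refine tsum_congr fun s => ?_
    rw [← ENNReal.tsum_mul_left]
    refine tsum_congr fun c => ?_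
    rw [ind_and, w_snoc]
    ring
  rw [h1]
  refine mul_le_mul' ?_ le_rfl
  split_ifs with hg
  · unfold TKs
    rw [Alph.tsum_snoc (fun l => ∑' s, ind (S.gp σ l s ∧ S.FP (S.h s + d σ) l ∧ Nat.size (S.h s) = g ∧
      2 ^ (y - 1) ≤ S.lsz wd l) * (S.w l * S.w s))]
    refine le_trans ?_ le_add_self
    refine ENNReal.tsum_le_tsum fun l => ENNReal.tsum_le_tsum fun e => ENNReal.tsum_le_tsum fun s =>
      mul_le_mul' (ind_mono ?_) le_rfl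
    rintro ⟨h2, h3, h4, h5⟩
    exact ⟨h2, h3, h4, h5 hg⟩
  · unfold TAs
    rw [Alph.tsum_snoc (fun l => ∑' s, ind (S.gp σ l s ∧ S.FP (S.h s + d σ) l ∧ Nat.size (S.h s) = g) * (S.w l * S.w s))]
    refine le_trans ?_ le_add_self
    refine ENNReal.tsum_le_tsum fun l => ENNReal.tsum_le_tsum fun e => ENNReal.tsum_le_tsum fun s =>
      mul_le_mul' (ind_mono ?_) le_rfl
    rintro ⟨h2, h3, h4, -⟩
    exact ⟨h2, h3, h4⟩

theorem mzA_eq (σ : Bool) (g y k : ℕ) :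
    S.mzA σ g y k = ∑' s, ∑' u, ind (S.gp σ u s ∧ S.FP (S.h s + d σ) u ∧ Nat.size (S.h s) = g) * (S.w u * S.w s) *
      S.IZ (!σ) s u (2 ^ y - 1) k := by
  unfold mzA
  refine tsum_congr fun s => ?_
  have hy := Nat.one_le_two_pow (n := y)
  have h1 : ∀ l, ∑' e, ∑' c, ind (S.FP (2 ^ y) (l ++ [e]) ∧ S.gp σ (S.pre (S.h s + d σ) l) s ∧ S.h s + d σ ≤ S.h l ∧
      Nat.size (S.h s) = g ∧ S.gp (!σ) (s ++ [c]) l ∧ 2 ^ k ≤ S.ht c) * (S.w l * S.wt e * (S.w s * S.wt c)) =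
      ind (S.h s + d σ ≤ S.h l) * (ind (S.gp σ (S.pre (S.h s + d σ) l) s ∧ Nat.size (S.h s) = g) * S.w s *
        ∑' c, ind (S.gp (!σ) (s ++ [c]) l ∧ S.h l ≤ 2 ^ y - 1 ∧ 2 ^ k ≤ S.ht c) *
          (S.wt c * (S.w l * S.Lam (2 ^ y - 1 - S.h l)))) := by
    intro l
    rw [ENNReal.tsum_comm, ← ENNReal.tsum_mul_left, ← ENNReal.tsum_mul_left]
    refine tsum_congr fun c => ?_
    by_cases hN : S.h l ≤ 2 ^ y - 1
    · rw [← S.tsum_cross (2 ^ y - 1) l hN]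
      rw [show ind (S.h s + d σ ≤ S.h l) * (ind (S.gp σ (S.pre (S.h s + d σ) l) s ∧ Nat.size (S.h s) = g) * S.w s *
        (ind (S.gp (!σ) (s ++ [c]) l ∧ S.h l ≤ 2 ^ y - 1 ∧ 2 ^ k ≤ S.ht c) *
          (S.wt c * (S.w l * ∑' e, ind (2 ^ y - 1 < S.h l + S.ht e) * S.wt e)))) =
        (ind (S.h s + d σ ≤ S.h l) * (ind (S.gp σ (S.pre (S.h s + d σ) l) s ∧ Nat.size (S.h s) = g) *
        (ind (S.gp (!σ) (s ++ [c]) l ∧ S.h l ≤ 2 ^ y - 1 ∧ 2 ^ k ≤ S.ht c))) * (S.w s * (S.wt c * S.w l))) *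
          ∑' e, ind (2 ^ y - 1 < S.h l + S.ht e) * S.wt e by ring, ← ENNReal.tsum_mul_left]
      refine tsum_congr fun e => ?_
      rw [← ind_and, ← ind_and, ind_congr (show (S.FP (2 ^ y) (l ++ [e]) ∧ S.gp σ (S.pre (S.h s + d σ) l) s ∧
        S.h s + d σ ≤ S.h l ∧ Nat.size (S.h s) = g ∧ S.gp (!σ) (s ++ [c]) l ∧ 2 ^ k ≤ S.ht c) ↔
        (S.h s + d σ ≤ S.h l ∧ (S.gp σ (S.pre (S.h s + d σ) l) s ∧ Nat.size (S.h s) = g) ∧
          (S.gp (!σ) (s ++ [c]) l ∧ S.h l ≤ 2 ^ y - 1 ∧ 2 ^ k ≤ S.ht c)) ∧ 2 ^ y - 1 < S.h l + S.ht e by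
          rw [S.FP_snoc]
          constructor
          · rintro ⟨⟨h2, h3⟩, h4, h5, h6, h7, h8⟩
            exact ⟨⟨h5, ⟨h4, h6⟩, h7, by omega, h8⟩, by omega⟩
          · rintro ⟨⟨h5, ⟨h4, h6⟩, h7, h9, h8⟩, h10⟩
            exact ⟨⟨by omega, by omega⟩, h4, h5, h6, h7, h8⟩), ind_and _ (2 ^ y - 1 < S.h l + S.ht e)]
      ring
    · rw [ind_false (p := S.gp (!σ) (s ++ [c]) l ∧ S.h l ≤ 2 ^ y - 1 ∧ 2 ^ k ≤ S.ht c) (fun h => hN h.2.1), zero_mul,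
        mul_zero, mul_zero, ENNReal.tsum_eq_zero]
      intro e
      rw [ind_false, zero_mul]
      rintro ⟨h2, -⟩
      rw [S.FP_snoc] at h2
      omega
  rw [tsum_congr h1, S.tsum_split (S.h s + d σ)]
  refine tsum_congr fun u => ?_
  by_cases hF : S.FP (S.h s + d σ) u
  · rw [ind_true hF, one_mul]
    unfold IZ
    rw [ENNReal.tsum_comm (f := fun c r => ind (S.gp (!σ) (s ++ [c]) (u ++ r) ∧ S.h (u ++ r) ≤ 2 ^ y - 1 ∧ 2 ^ k ≤ S.ht c) *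
      (S.wt c * (S.w r * S.Lam (2 ^ y - 1 - S.h (u ++ r))))), ← ENNReal.tsum_mul_left]
    refine tsum_congr fun r => ?_
    rw [S.pre_app hF, ind_congr (show (S.gp σ u s ∧ S.FP (S.h s + d σ) u ∧ Nat.size (S.h s) = g) ↔
      (S.gp σ u s ∧ Nat.size (S.h s) = g) by tauto), ← ENNReal.tsum_mul_left, ← ENNReal.tsum_mul_left]
    refine tsum_congr fun c => ?_
    rw [S.w_append]
    ring
  · rw [ind_false hF, zero_mul, ind_false (p := S.gp σ u s ∧ S.FP (S.h s + d σ) u ∧ Nat.size (S.h s) = g)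
      (fun h => hF h.2.1), zero_mul, zero_mul]

theorem mzA_le {wd : S.B → ℕ} {K ρ₁ ρ₂ : ℝ≥0∞} (hH : S.Hit wd K ρ₁ ρ₂) (hR : S.Rho K ρ₂) (hb : Antitone S.b) (hK : 1 ≤ K)
    (h10 : ρ₁ ≠ 0) (h11 : ρ₁ ≤ 1) (h21 : ρ₂ ≤ 1) (σ : Bool) {g y k : ℕ} (hgy : g ≤ y) (hyk : y ≤ k) :
    S.U (2 ^ y) * S.mzA σ g y k ≤ KZ K ρ₁ * ρ₂ ^ (k - y) * S.PW ρ₁ σ g y := by
  rw [mzA_eq, ← ENNReal.tsum_mul_left]
  unfold PW
  rw [ENNReal.tsum_comm (f := fun u l => ind (S.gp σ u l ∧ S.FP (S.h l + d σ) u ∧ Nat.size (S.h l) = g) *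
    (S.w u * S.w l) * wg ρ₁ g y (S.ds (!σ) l u)), ← ENNReal.tsum_mul_left]
  refine ENNReal.tsum_le_tsum fun s => ?_
  rw [← ENNReal.tsum_mul_left, ← ENNReal.tsum_mul_left]
  refine ENNReal.tsum_le_tsum fun u => ?_
  by_cases hP : S.gp σ u s ∧ S.FP (S.h s + d σ) u ∧ Nat.size (S.h s) = g
  · rw [ind_true hP, one_mul]
    by_cases hN : S.h u ≤ 2 ^ y - 1
    · have h1 := IZ_le hH hR hb hK h10 h11 h21 (σ := !σ) hgy hyk hP.2.2 ((Nat.le_add_right _ _).trans hP.2.1.1) hN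
      calc S.U (2 ^ y) * (S.w u * S.w s * S.IZ (!σ) s u (2 ^ y - 1) k)
          = S.w u * S.w s * (S.U (2 ^ y) * S.IZ (!σ) s u (2 ^ y - 1) k) := by ring
        _ ≤ S.w u * S.w s * (KZ K ρ₁ * ρ₂ ^ (k - y) * wg ρ₁ g y (S.ds (!σ) s u)) := mul_le_mul' le_rfl h1
        _ = _ := by ring
    · have h1 : S.IZ (!σ) s u (2 ^ y - 1) k = 0 := by
        unfold IZ
        rw [ENNReal.tsum_eq_zero]
        intro c
        rw [ENNReal.tsum_eq_zero]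
        intro r
        rw [ind_false, zero_mul]
        rintro ⟨-, h2, -⟩
        rw [S.h_append] at h2
        omega
      rw [h1, mul_zero, mul_zero]
      exact bot_le
  · rw [ind_false hP]
    simp

/-- The constant of `mz_le`. -/
noncomputable def CZ (KG : ℕ) (K ρ ρ₁ B : ℝ≥0∞) : ℝ≥0∞ := KZ K ρ₁ * (C2 KG ρ ρ₁ * B) + K * K * B * ρ₁⁻¹

/-- **The giant one-sided below the level `2 ^ y`** (LEMMA G summed over the mirror pairs of class `g`). -/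
theorem mz_le {wd : S.B → ℕ} {KG : ℕ} {K ρ₁ ρ₂ ρ B : ℝ≥0∞} (hG : S.Gyp KG) (hb : ∀ N, S.b N ≠ 0) (hH : S.Hit wd K ρ₁ ρ₂)
    (hR : S.Rho K ρ₂) (hK : 1 ≤ K) (hρ : 2⁻¹ ≤ ρ) (h1 : ρ ≤ ρ₁) (h11 : ρ₁ ≤ 1) (h21 : ρ₂ ≤ 1)
    (hB : 1 ≤ B) (hlow : ∀ g, S.TA g ≤ B ∧ ∀ k, g ≤ k → S.TK wd g k ≤ B * ρ ^ (k - g)) (σ : Bool) (i g y k : ℕ)
    (hgy : g ≤ y) (hyk : y ≤ k) (hi : 2 ^ y ≤ i + 1) :
    S.U (2 ^ y) * S.mz σ i g y k ≤ CZ KG K ρ ρ₁ B * ρ₁ ^ (y - g) * ρ₂ ^ (k - y) := by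
  have h0 : ρ ≠ 0 := fun h => by
    rw [h] at hρ
    exact absurd (le_antisymm hρ bot_le) (by norm_num)
  have h10 : ρ₁ ≠ 0 := fun h => h0 (le_antisymm (h1.trans h.le) bot_le)
  have h1t : ρ₁ ≠ ⊤ := ne_top_of_le_ne_top ENNReal.one_ne_top h11
  have h2 : ρ₁⁻¹ * ρ₁ = 1 := ENNReal.inv_mul_cancel h10 h1t
  have h3 : 1 ≤ ρ₁⁻¹ := ENNReal.one_le_inv.2 h11
  have hA := (mzA_le hH hR hG.anti hK h10 h11 h21 σ hgy hyk).trans (mul_le_mul' le_rfl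
    (pairs_le hG hb hH hρ (h1.trans h11) h10 h11 hB σ g y (hlow g).1 (hlow g).2))
  have hT : (if g < y then S.TKs wd σ g (y - 1) else S.TAs σ g) ≤ B * ρ₁⁻¹ * ρ₁ ^ (y - g) := by
    split_ifs with hg
    · refine (TKs_le wd σ g (y - 1)).trans (((hlow g).2 (y - 1) (by omega)).trans ?_)
      have e1 : y - g = (y - 1 - g) + 1 := by omega
      calc B * ρ ^ (y - 1 - g) ≤ B * ρ₁ ^ (y - 1 - g) := mul_le_mul' le_rfl (pow_le_pow_left' h1 _)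
        _ = B * (ρ₁⁻¹ * ρ₁) * ρ₁ ^ (y - 1 - g) := by rw [h2, mul_one]
        _ = B * ρ₁⁻¹ * ρ₁ ^ (y - g) := by rw [e1, pow_succ]; ring
    · refine (TAs_le σ g).trans ((hlow g).1.trans ?_)
      have e1 : y - g = 0 := by omega
      rw [e1, pow_zero, mul_one]
      exact le_mul_of_one_le_right' h3
  have hBB : S.U (2 ^ y) * S.mzB wd σ g y k ≤ K * K * B * ρ₁⁻¹ * ρ₁ ^ (y - g) * ρ₂ ^ (k - y) := by
    calc S.U (2 ^ y) * S.mzB wd σ g y k ≤ S.U (2 ^ y) * (B * ρ₁⁻¹ * ρ₁ ^ (y - g) * ∑' c, ind (2 ^ k ≤ S.ht c) * S.wt c) :=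
          mul_le_mul' le_rfl ((mzB_le wd σ).trans (mul_le_mul' hT le_rfl))
      _ = B * ρ₁⁻¹ * ρ₁ ^ (y - g) * (S.U (2 ^ y) * ∑' c, ind (2 ^ k ≤ S.ht c) * S.wt c) := by ring
      _ ≤ B * ρ₁⁻¹ * ρ₁ ^ (y - g) * (K * K * ρ₂ ^ (k - y)) := mul_le_mul' le_rfl (LamK_le hH hR hyk)
      _ = _ := by ring
  calc S.U (2 ^ y) * S.mz σ i g y k ≤ S.U (2 ^ y) * (S.mzA σ g y k + S.mzB wd σ g y k) :=
        mul_le_mul' le_rfl ((mz_le_mr σ hgy hi).trans (mr_le wd σ hgy hyk))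
    _ = S.U (2 ^ y) * S.mzA σ g y k + S.U (2 ^ y) * S.mzB wd σ g y k := by rw [mul_add]
    _ ≤ KZ K ρ₁ * ρ₂ ^ (k - y) * (C2 KG ρ ρ₁ * B * ρ₁ ^ (y - g)) + K * K * B * ρ₁⁻¹ * ρ₁ ^ (y - g) * ρ₂ ^ (k - y) :=
        add_le_add hA hBB
    _ = CZ KG K ρ ρ₁ B * ρ₁ ^ (y - g) * ρ₂ ^ (k - y) := by unfold CZ; ring

lemma CZ_ne_top {KG : ℕ} {K ρ ρ₁ B : ℝ≥0∞} (hK : K ≠ ⊤) (hρ : 2⁻¹ ≤ ρ) (h1 : ρ < ρ₁) (h11 : ρ₁ ≤ 1) (hB : B ≠ ⊤) :
    CZ KG K ρ ρ₁ B ≠ ⊤ := by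
  have h0 : ρ ≠ 0 := fun h => by
    rw [h] at hρ
    exact absurd (le_antisymm hρ bot_le) (by norm_num)
  have h10 : ρ₁ ≠ 0 := (lt_of_le_of_lt bot_le h1).ne'
  have h1t : ρ₁ ≠ ⊤ := ne_top_of_le_ne_top ENNReal.one_ne_top h11
  have hr : ρ * ρ₁⁻¹ < 1 := by
    rw [← div_eq_mul_inv]
    exact (ENNReal.div_lt_iff (Or.inl h10) (Or.inl h1t)).2 (by rwa [one_mul])
  have hinv0 : ρ⁻¹ ≠ ⊤ := ENNReal.inv_ne_top.2 h0
  have hinv1 : ρ₁⁻¹ ≠ ⊤ := ENNReal.inv_ne_top.2 h10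
  have hinv3 : (1 - ρ * ρ₁⁻¹)⁻¹ ≠ ⊤ := ENNReal.inv_ne_top.2 (tsub_pos_of_lt hr).ne'
  unfold CZ KZ C2 CG
  finiteness

end Sys

end Pool.Agent.HEP
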