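import Pool.Agent.PLF.Pre

/-!
Project PLY (MP_8c6f77_pr, honeycomb lattice, polynomial bound), STEP 5 (note 3082), architect helper27: DEFINITIONS AND INTERFACE.

* `sz wd c` = size of the block `c` (the larger one of its height and of its width `wd c`), `lsz wd l` = size of the last block
  of the word `l` (`0` for the empty word).
* Classes of heights: `Nat.size (h s) = g`, that is `h s = 0` for `g = 0` and `2 ^ (g - 1) ≤ h s < 2 ^ g` for `g ≥ 1`.
* `TA g` = mass of the pairs `gp` (PLF/Defs) with a short leg of class `g` and the long leg in first passage, both sides added.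
  `TK wd g k` = the same with a last block of the long leg of size `≥ 2 ^ k`.
* `ds σ l s` = distance of the ends of the leg `l` (side `σ`) and of the other leg `s`, `h l ≤ h s`.
* `SP wd σ g j k` = the pairs with a giant: leg `l ++ [c]`, `l` of class `g`, `c` of size `≥ 2 ^ k`, other leg `s` of class `j`, higher than `l`.
* `Hit wd K ρ₁ ρ₂`: WHAT THE GEOMETRY SUPPLIES. `hit` is LEMMA G: a block `c` of height `≥ 2 ^ j` and size `≥ 2 ^ k` which
  starts at the end of `l`, and the fresh other leg, which starts at the end of `s` at distance `≤ 2 ^ i`, followed up to its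
  last renewal `≤ h l + 2 ^ j` (the word `s ++ t`; then a block over this level, of total mass `Lam (h l + 2 ^ j - h (s ++ t))`).
* `Sharp wd ρ`: the sharp fold estimate (note 3064, PLF/I2) in the form used here.

OUTPUT (Main.lean): `∃ B ≠ ⊤, ∀ g, TA g ≤ B ∧ ∀ k ≥ g, TK wd g k ≤ B * ρ ^ (k - g)` and `SP wd σ g j k ≤ B * ρ₁ ^ (j - g) * ρ₂ ^ (k - j)`.
-/

namespace Pool.Agent.HEP

open scoped ENNReal

namespace Sys

variable (S : Sys)

/-- Size of a block. -/
def sz (wd : S.B → ℕ) (c : S.B) : ℕ := max (S.ht c) (wd c)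

/-- Size of the last block of a word (`0` for the empty word). -/
def lsz (wd : S.B → ℕ) (l : List S.B) : ℕ := (l.getLast?.map (S.sz wd)).getD 0

lemma lsz_nil (wd : S.B → ℕ) : S.lsz wd [] = 0 := rfl

lemma lsz_snoc (wd : S.B → ℕ) (l : List S.B) (c : S.B) : S.lsz wd (l ++ [c]) = S.sz wd c := by
  simp [lsz]

/-- Distance of the ends of a leg `l` (side `σ`) and of the other leg `s`. -/
def ds (σ : Bool) (l s : List S.B) : ℕ := max (S.h s - S.h l) (S.pl σ l - S.ps σ s).natAbs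

/-- Mass of the first passage pairs, short leg of class `g`. -/
noncomputable def TA (g : ℕ) : ℝ≥0∞ :=
  ∑ σ : Bool, ∑' l, ∑' s, ind (S.gp σ l s ∧ S.FP (S.h s + d σ) l ∧ Nat.size (S.h s) = g) * (S.w l * S.w s)

/-- The same, last block of the long leg of size `≥ 2 ^ k`. -/
noncomputable def TK (wd : S.B → ℕ) (g k : ℕ) : ℝ≥0∞ :=
  ∑ σ : Bool, ∑' l, ∑' s, ind (S.gp σ l s ∧ S.FP (S.h s + d σ) l ∧ Nat.size (S.h s) = g ∧ 2 ^ k ≤ S.lsz wd l) *
    (S.w l * S.w s)

/-- The pairs with a giant `c` behind the near part `l` of class `g`, other leg `s` of class `j`, higher than `l`. -/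
noncomputable def SP (wd : S.B → ℕ) (σ : Bool) (g j k : ℕ) : ℝ≥0∞ :=
  ∑' l, ∑' c, ∑' s, ind (S.gp σ (l ++ [c]) s ∧ S.h l + d (!σ) ≤ S.h s ∧ Nat.size (S.h l) = g ∧ Nat.size (S.h s) = j ∧
    2 ^ k ≤ S.sz wd c) * (S.w l * S.wt c * S.w s)

/-- What the geometry supplies. -/
structure Hit (wd : S.B → ℕ) (K ρ₁ ρ₂ : ℝ≥0∞) : Prop where
  /-- the displacement of a block is smaller than its width -/
  dx : ∀ c, |S.dx c| + 1 ≤ wd c
  /-- the crossings of a level by the last block, largest one -/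
  hi : ∀ σ q l c, S.FP (q + d σ) (l ++ [c]) → |S.hi σ (l ++ [c]) q - S.pl σ (l ++ [c])| ≤ wd c
  /-- the crossings of a level by the last block, smallest one -/
  lo : ∀ σ q l c, S.FP (q + d σ) (l ++ [c]) → |S.lo σ (l ++ [c]) q - S.pl σ (l ++ [c])| ≤ wd c
  /-- tail of the size of a block -/
  tail : ∀ k, S.U (2 ^ k) * ∑' c, ind (2 ^ k ≤ S.sz wd c) * S.wt c ≤ K
  /-- LEMMA G -/
  hit : ∀ (σ : Bool) (l s : List S.B) (i j k : ℕ), i ≤ j → j ≤ k → S.h l ≤ S.h s → S.ds σ l s ≤ 2 ^ i →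
    S.U (2 ^ j) * ∑' c, ∑' t, ind (S.gp σ (l ++ [c]) (s ++ t) ∧ S.h (s ++ t) ≤ S.h l + 2 ^ j ∧ 2 ^ j ≤ S.ht c ∧
      2 ^ k ≤ S.sz wd c) * (S.wt c * (S.w t * S.Lam (S.h l + 2 ^ j - S.h (s ++ t)))) ≤ K * ρ₁ ^ (j - i) * ρ₂ ^ (k - j)

/-- The sharp fold estimate: for every `ε` there is a constant `C` such that control of the lower classes by `B` gives `TA g ≤ C + ε B`. -/
def Sharp (wd : S.B → ℕ) (ρ : ℝ≥0∞) : Prop :=
  ∀ ε : ℝ≥0∞, ε ≠ 0 → ∃ C : ℝ≥0∞, C ≠ ⊤ ∧ ∀ (g : ℕ) (B : ℝ≥0∞),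
    (∀ a < g, S.TA a ≤ B ∧ ∀ k, a ≤ k → S.TK wd a k ≤ B * ρ ^ (k - a)) → S.TA g ≤ C + ε * B

/-- Regularity of the renewal function. -/
def Rho (K ρ : ℝ≥0∞) : Prop := ∀ j k, j ≤ k → S.U (2 ^ j) ≤ K * ρ ^ (k - j) * S.U (2 ^ k)

end Sys

end Pool.Agent.HEP
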