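import Pool.Agent.PLY.V.Pairs
import Pool.Agent.PLF.I2

/-!
Project PLY, STEP 5, module Sh: `Sharp` from PLF/I2.

`Td i N` of PLF/I2 is the class `i + 1` of `Nat.size`; `Td i 0 = TA (i + 1)`; for `k ≥ i + 2` a long leg of height `> 2 ^ k` has a last block of height
`> 2 ^ k - 2 ^ (i + 1) ≥ 2 ^ (k - 1)`, so `Td i (2 ^ k) ≤ TK wd (i + 1) (k - 1)`.
-/

namespace Pool.Agent.HEP

open scoped ENNReal
open Finset

namespace Sys

variable {S : Sys}

lemma size_eq_succ {n i : ℕ} : Nat.size n = i + 1 ↔ 2 ^ i ≤ n ∧ n < 2 ^ (i + 1) := by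
  constructor
  · intro h
    refine ⟨?_, sizeV_lt h⟩
    have := le_of_size h (Nat.succ_le_succ (Nat.zero_le i))
    simpa using this
  · rintro ⟨h1, h2⟩
    have h3 := Nat.size_le.2 h2
    have h4 := Nat.lt_size.2 h1
    omega

theorem Td_eq (i N : ℕ) : S.Td i N = ∑ σ : Bool, ∑' l, ∑' s, ind (S.gp σ l s ∧ S.FP (S.h s + d σ) l ∧
    Nat.size (S.h s) = i + 1 ∧ N < S.h l) * (S.w l * S.w s) := by
  have h1 : ∀ σ, ∑ q ∈ Ico (2 ^ i) (2 ^ (i + 1)), S.mt σ q N = ∑' l, ∑' s, ind (S.gp σ l s ∧ S.FP (S.h s + d σ) l ∧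
      Nat.size (S.h s) = i + 1 ∧ N < S.h l) * (S.w l * S.w s) := by
    intro σ
    unfold mt
    rw [← Summable.tsum_finsetSum (fun _ _ => ENNReal.summable)]
    refine tsum_congr fun l => ?_
    rw [← Summable.tsum_finsetSum (fun _ _ => ENNReal.summable)]
    refine tsum_congr fun s => ?_
    rw [← Finset.sum_mul]
    congr 1
    by_cases hP : S.gp σ l s ∧ S.FP (S.h s + d σ) l ∧ Nat.size (S.h s) = i + 1 ∧ N < S.h l
    · rw [ind_true hP, Finset.sum_eq_single (S.h s)]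
      · exact ind_true ⟨hP.1, hP.2.1, rfl, hP.2.2.2⟩
      · intro q _ hq
        exact ind_false fun h => hq h.2.2.1.symm
      · intro h
        exact absurd (Finset.mem_Ico.2 (size_eq_succ.1 hP.2.2.1)) h
    · rw [ind_false hP]
      refine Finset.sum_eq_zero fun q hq => ind_false ?_
      rintro ⟨h2, h3, h4, h5⟩
      rw [← h4] at h3 hq
      exact hP ⟨h2, h3, size_eq_succ.2 (Finset.mem_Ico.1 hq), h5⟩
  unfold Td m2
  rw [Finset.sum_add_distrib, h1, h1, Fintype.sum_bool]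

theorem TA_succ (i : ℕ) : S.TA (i + 1) = S.Td i 0 := by
  rw [Td_eq]
  unfold TA
  refine Finset.sum_congr rfl fun σ _ => tsum_congr fun l => tsum_congr fun s => ?_
  rw [ind_congr]
  constructor
  · rintro ⟨h1, h2, h3⟩
    refine ⟨h1, h2, h3, ?_⟩
    have h4 := (size_eq_succ.1 h3).1
    have h5 := h2.1
    have h6 := Nat.one_le_two_pow (n := i)
    omega
  · rintro ⟨h1, h2, h3, -⟩
    exact ⟨h1, h2, h3⟩

theorem Td_le_TK (wd : S.B → ℕ) {i k : ℕ} (hk : i + 2 ≤ k) : S.Td i (2 ^ k) ≤ S.TK wd (i + 1) (k - 1) := by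
  rw [Td_eq]
  unfold TK
  refine Finset.sum_le_sum fun σ _ => ENNReal.tsum_le_tsum fun l => ENNReal.tsum_le_tsum fun s =>
    mul_le_mul' (ind_mono ?_) le_rfl
  rintro ⟨h1, h2, h3, h4⟩
  refine ⟨h1, h2, h3, ?_⟩
  obtain ⟨m, rfl⟩ : ∃ m, k = m + 1 := ⟨k - 1, by omega⟩
  have e : m + 1 - 1 = m := by omega
  rw [e]
  have e2 : 2 ^ (m + 1) = 2 * 2 ^ m := by rw [pow_succ]; ring
  rw [e2] at h4
  rcases List.eq_nil_or_concat l with hl | ⟨l', c, hl⟩
  · rw [hl, S.h_nil] at h4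
    omega
  · rw [List.concat_eq_append] at hl
    subst hl
    rw [lsz_snoc]
    have h5 := S.FP_snoc.1 h2
    have h6 := (size_eq_succ.1 h3).2
    have h7 : 2 ^ (i + 1) ≤ 2 ^ m := Nat.pow_le_pow_right (by norm_num) (by omega)
    have h8 := d_le σ
    rw [h_snoc] at h4
    exact le_trans (by omega) (le_max_left (S.ht c) (wd c))

lemma TA_zero : S.TA 0 ≤ 2 := by
  have h1 : ∀ σ, ∑' l, ∑' s, ind (S.gp σ l s ∧ S.FP (S.h s + d σ) l ∧ Nat.size (S.h s) = 0) * (S.w l * S.w s) ≤ 1 := by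
    intro σ
    calc ∑' l, ∑' s, ind (S.gp σ l s ∧ S.FP (S.h s + d σ) l ∧ Nat.size (S.h s) = 0) * (S.w l * S.w s)
        ≤ ∑' l, ∑' s, (ind (S.FP (d σ) l) * S.w l) * (ind (S.h s = 0) * S.w s) := by
          refine ENNReal.tsum_le_tsum fun l => ENNReal.tsum_le_tsum fun s => ?_
          by_cases hP : S.gp σ l s ∧ S.FP (S.h s + d σ) l ∧ Nat.size (S.h s) = 0
          · obtain ⟨-, h2, h3⟩ := hP
            have h4 : S.h s = 0 := Nat.size_eq_zero.1 h3
            rw [h4, zero_add] at h2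
            rw [ind_true h2, ind_true h4, one_mul, one_mul]
            exact (mul_le_mul' (ind_le_one _) le_rfl).trans (le_of_eq (one_mul _))
          · rw [ind_false hP, zero_mul]
            exact bot_le
      _ = (∑' l, ind (S.FP (d σ) l) * S.w l) * S.b 0 := by
          rw [← ENNReal.tsum_mul_right]
          refine tsum_congr fun l => ?_
          rw [ENNReal.tsum_mul_left]
          rfl
      _ = 1 := by rw [S.tsum_FP, S.b_zero, one_mul]
  unfold TA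
  rw [Fintype.sum_bool]
  exact (add_le_add (h1 true) (h1 false)).trans (by rw [one_add_one_eq_two])

/-- The sharp fold estimate. -/
theorem sharp_of (wd : S.B → ℕ) {K κ : ℕ} (hG : S.Gyp K) (hR : S.Reg κ) {ρ : ℝ≥0∞} (h0 : ρ ≠ 0) (h1 : ρ < 1) : S.Sharp wd ρ := by
  intro ε hε
  have ht : ρ ≠ ⊤ := ne_top_of_lt h1
  have hc : ρ * ρ⁻¹ = 1 := ENNReal.mul_inv_cancel h0 ht
  have hi : 1 ≤ ρ⁻¹ := ENNReal.one_le_inv.2 h1.le
  obtain ⟨C, hCt, hC⟩ := i2 K κ ρ h1 (ε * (ρ * ρ)) (mul_ne_zero hε (mul_ne_zero h0 h0))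
  refine ⟨C + 2, by finiteness, fun g B hB => ?_⟩
  rcases g with _ | j
  · exact TA_zero.trans (le_trans le_add_self (le_self_add))
  rw [TA_succ]
  have hBB : B ≤ B * (ρ⁻¹ * ρ⁻¹) := le_mul_of_one_le_right' (one_le_mul hi hi)
  have key := hC S hG hR (B * (ρ⁻¹ * ρ⁻¹)) j ?_ ?_
  · refine key.trans ?_
    have e1 : ε * (ρ * ρ) * (B * (ρ⁻¹ * ρ⁻¹)) = ε * B := by
      calc ε * (ρ * ρ) * (B * (ρ⁻¹ * ρ⁻¹)) = ε * B * ((ρ * ρ⁻¹) * (ρ * ρ⁻¹)) := by ring
        _ = ε * B := by rw [hc]; ring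
    rw [e1]
    exact add_le_add le_self_add le_rfl
  · intro i hi'
    rw [← TA_succ]
    exact ((hB (i + 1) (by omega)).1).trans hBB
  · intro i hi' k hk
    rcases Nat.lt_or_ge k (i + 2) with h2 | h2
    · refine le_trans ?_ ((hB (i + 1) (by omega)).1.trans ?_)
      · rw [TA_succ]
        unfold Td
        exact Finset.sum_le_sum fun q _ => m2_anti q (Nat.zero_le _)
      · have h3 : 1 ≤ (ρ⁻¹ * ρ⁻¹) * ρ ^ (k - i) := by
          rcases Nat.eq_zero_or_pos (k - i) with h4 | h4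
          · rw [h4, pow_zero, mul_one]
            exact one_le_mul hi hi
          · have h5 : k - i = 1 := by omega
            rw [h5, pow_one, mul_assoc, mul_comm ρ⁻¹ ρ, hc, mul_one]
            exact hi
        calc B = B * 1 := (mul_one B).symm
          _ ≤ B * ((ρ⁻¹ * ρ⁻¹) * ρ ^ (k - i)) := mul_le_mul' le_rfl h3
          _ = B * (ρ⁻¹ * ρ⁻¹) * ρ ^ (k - i) := by ring
    · refine (Td_le_TK wd h2).trans (((hB (i + 1) (by omega)).2 (k - 1) (by omega)).trans (le_of_eq ?_))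
      have e1 : k - i = (k - 1 - (i + 1)) + 2 := by omega
      rw [e1, pow_add]
      calc B * ρ ^ (k - 1 - (i + 1)) = B * ρ ^ (k - 1 - (i + 1)) * ((ρ * ρ⁻¹) * (ρ * ρ⁻¹)) := by rw [hc]; ring
        _ = B * (ρ⁻¹ * ρ⁻¹) * (ρ ^ (k - 1 - (i + 1)) * ρ ^ 2) := by ring

end Sys

end Pool.Agent.HEP
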