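import Pool.Agent.PLY.V.Lower

/-!
Project PLY, STEP 5, module Inner: the sum over the giant `c` and over the continuation `r` of the other leg, for a fixed lower pair `(u, l)`.

`IN_triv`: drop the avoidance. `IN_hit`: cut `u ++ r` at its last renewal `≤ h l + 2 ^ (j - 2)` and use LEMMA G. `IN_le`: both together.
-/

namespace Pool.Agent.HEP

open scoped ENNReal
open Finset

namespace Sys

variable {S : Sys}

/-- Sum over the giant and over the continuation of the other leg. -/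
noncomputable def IN (S : Sys) (wd : S.B → ℕ) (σ : Bool) (l u : List S.B) (j k : ℕ) : ℝ≥0∞ :=
  ∑' c, ∑' r, ind (S.gp σ (l ++ [c]) (u ++ r) ∧ Nat.size (S.h (u ++ r)) = j ∧ 2 ^ k ≤ S.sz wd c) * (S.wt c * S.w r)

lemma sizeV_lt {n j : ℕ} (h : Nat.size n = j) : n < 2 ^ j := by
  rw [← h]; exact Nat.lt_size_self n

lemma le_of_size {n j : ℕ} (h : Nat.size n = j) (hj : 1 ≤ j) : 2 ^ (j - 1) ≤ n := by
  by_contra h1
  push Not at h1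
  have := Nat.size_le.2 h1
  omega

theorem IN_triv {wd : S.B → ℕ} {K ρ₁ ρ₂ : ℝ≥0∞} (hH : S.Hit wd K ρ₁ ρ₂) (hR : S.Rho K ρ₂) (σ : Bool)
    (l u : List S.B) {j k : ℕ} (hjk : j ≤ k) : S.IN wd σ l u j k ≤ K * K * ρ₂ ^ (k - j) := by
  have h1 : S.IN wd σ l u j k ≤ (∑' c, ind (2 ^ k ≤ S.sz wd c) * S.wt c) * S.U (2 ^ j) := by
    unfold IN
    rw [← ENNReal.tsum_mul_right]
    refine ENNReal.tsum_le_tsum fun c => ?_
    rw [← S.tsum_le (2 ^ j), ← ENNReal.tsum_mul_left]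
    refine ENNReal.tsum_le_tsum fun r => ?_
    by_cases hP : S.gp σ (l ++ [c]) (u ++ r) ∧ Nat.size (S.h (u ++ r)) = j ∧ 2 ^ k ≤ S.sz wd c
    · have h2 := sizeV_lt hP.2.1
      rw [S.h_append] at h2
      rw [ind_true hP, ind_true hP.2.2, ind_true (by omega : S.h r ≤ 2 ^ j)]
      simp
    · rw [ind_false hP, zero_mul]
      exact bot_le
  calc S.IN wd σ l u j k ≤ (∑' c, ind (2 ^ k ≤ S.sz wd c) * S.wt c) * S.U (2 ^ j) := h1
    _ ≤ (∑' c, ind (2 ^ k ≤ S.sz wd c) * S.wt c) * (K * ρ₂ ^ (k - j) * S.U (2 ^ k)) := mul_le_mul' le_rfl (hR j k hjk)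
    _ = K * ρ₂ ^ (k - j) * (S.U (2 ^ k) * ∑' c, ind (2 ^ k ≤ S.sz wd c) * S.wt c) := by ring
    _ ≤ K * ρ₂ ^ (k - j) * K := mul_le_mul' le_rfl (hH.tail k)
    _ = K * K * ρ₂ ^ (k - j) := by ring

private lemma IN_cut {wd : S.B → ℕ} (σ : Bool) (l u : List S.B) (c : S.B) {j k N : ℕ} (hN : N < 2 ^ (j - 1)) (hj : 1 ≤ j)
    (hu : S.h u ≤ N) :
    ∑' r, ind (S.gp σ (l ++ [c]) (u ++ r) ∧ Nat.size (S.h (u ++ r)) = j ∧ 2 ^ k ≤ S.sz wd c) * (S.wt c * S.w r) ≤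
      S.U (2 ^ j) * ∑' t, ind (S.gp σ (l ++ [c]) (u ++ t) ∧ S.h (u ++ t) ≤ N ∧ 2 ^ k ≤ S.sz wd c) *
        (S.wt c * (S.w t * S.Lam (N - S.h (u ++ t)))) := by
  have e1 : ∑' r, ind (S.gp σ (l ++ [c]) (u ++ r) ∧ Nat.size (S.h (u ++ r)) = j ∧ 2 ^ k ≤ S.sz wd c) * (S.wt c * S.w r) =
      ∑' r, ind (N - S.h u < S.h r) *
        (ind (S.gp σ (l ++ [c]) (u ++ r) ∧ Nat.size (S.h (u ++ r)) = j ∧ 2 ^ k ≤ S.sz wd c) * (S.wt c * S.w r)) := by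
    refine tsum_congr fun r => ?_
    by_cases hP : S.gp σ (l ++ [c]) (u ++ r) ∧ Nat.size (S.h (u ++ r)) = j ∧ 2 ^ k ≤ S.sz wd c
    · have h2 := le_of_size hP.2.1 hj
      rw [S.h_append] at h2
      rw [ind_true (by omega : N - S.h u < S.h r), one_mul]
    · rw [ind_false hP, zero_mul, mul_zero]
  rw [e1, S.tsum_cr (N - S.h u), ← ENNReal.tsum_mul_left]
  refine ENNReal.tsum_le_tsum fun t => ?_
  by_cases hQ : S.gp σ (l ++ [c]) (u ++ t) ∧ S.h (u ++ t) ≤ N ∧ 2 ^ k ≤ S.sz wd c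
  · rw [ind_true hQ, one_mul]
    have h3 := hQ.2.1
    rw [S.h_append] at h3
    have h4 : S.h t ≤ N - S.h u := by omega
    have e2 : N - S.h (u ++ t) = N - S.h u - S.h t := by rw [S.h_append]; omega
    rw [e2, ← S.tsum_cross (N - S.h u) t h4, ← S.tsum_le (2 ^ j)]
    calc ∑' e, ind (S.h t ≤ N - S.h u ∧ N - S.h u < S.h t + S.ht e) *
          ∑' r, ind (S.gp σ (l ++ [c]) (u ++ (t ++ e :: r)) ∧ Nat.size (S.h (u ++ (t ++ e :: r))) = j ∧ 2 ^ k ≤ S.sz wd c) *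
            (S.wt c * S.w (t ++ e :: r))
        ≤ ∑' e, ind (N - S.h u < S.h t + S.ht e) * (S.wt c * S.w t * S.wt e * ∑' r, ind (S.h r ≤ 2 ^ j) * S.w r) := by
          refine ENNReal.tsum_le_tsum fun e => mul_le_mul' (ind_mono fun h => h.2) ?_
          rw [← ENNReal.tsum_mul_left]
          refine ENNReal.tsum_le_tsum fun r => ?_
          by_cases hP : S.gp σ (l ++ [c]) (u ++ (t ++ e :: r)) ∧ Nat.size (S.h (u ++ (t ++ e :: r))) = j ∧ 2 ^ k ≤ S.sz wd c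
          · have h5 := sizeV_lt hP.2.1
            rw [S.h_append, S.h_append, S.h_cons] at h5
            rw [ind_true hP, ind_true (by omega : S.h r ≤ 2 ^ j), S.w_append, S.w_cons]
            exact le_of_eq (by ring)
          · rw [ind_false hP, zero_mul]
            exact bot_le
      _ = (∑' r, ind (S.h r ≤ 2 ^ j) * S.w r) *
            (S.wt c * (S.w t * ∑' e, ind (N - S.h u < S.h t + S.ht e) * S.wt e)) := by
          rw [← ENNReal.tsum_mul_left, ← ENNReal.tsum_mul_left, ← ENNReal.tsum_mul_left]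
          refine tsum_congr fun e => ?_
          ring
  · refine le_trans (le_of_eq ?_) bot_le
    rw [ENNReal.tsum_eq_zero.2]
    · rfl
    intro e
    by_cases h6 : S.h t ≤ N - S.h u ∧ N - S.h u < S.h t + S.ht e
    · rw [ENNReal.tsum_eq_zero.2, mul_zero]
      intro r
      rw [ind_false, zero_mul]
      rintro ⟨h7, h8, h9⟩
      refine hQ ⟨?_, ?_, h9⟩
      · rw [← List.append_assoc] at h7
        exact gp_pre h7
      · rw [S.h_append]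
        omega
    · rw [ind_false h6, zero_mul]

theorem IN_hit {wd : S.B → ℕ} {K ρ₁ ρ₂ : ℝ≥0∞} (hH : S.Hit wd K ρ₁ ρ₂) (hb : Antitone S.b) {σ : Bool}
    {l u : List S.B} {i j k : ℕ} (hij : i + 2 ≤ j) (hjk : j ≤ k) (hl : S.h l < 2 ^ i) (hu : S.h l ≤ S.h u)
    (hd : S.ds σ l u ≤ 2 ^ i) : S.IN wd σ l u j k ≤ 4 * K * ρ₁ ^ (j - 2 - i) * ρ₂ ^ (k - (j - 2)) := by
  obtain ⟨m, rfl⟩ : ∃ m, j = m + 2 := ⟨j - 2, by omega⟩
  have e0 : m + 2 - 2 = m := by omega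
  have e1 : m + 2 - 1 = m + 1 := by omega
  rw [e0]
  have him : i ≤ m := by omega
  have hp : 2 ^ i ≤ 2 ^ m := Nat.pow_le_pow_right (by norm_num) him
  have hp2 : 2 ^ (m + 1) = 2 * 2 ^ m := by rw [pow_succ]; ring
  have hN : S.h l + 2 ^ m < 2 ^ (m + 2 - 1) := by rw [e1, hp2]; omega
  have huN : S.h u ≤ S.h l + 2 ^ m := by
    have h1 : S.h u - S.h l ≤ 2 ^ i := le_trans (le_max_left _ _) hd
    omega
  have h2 := hH.hit σ l u i m k him (by omega) hu hd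
  have h3 : S.IN wd σ l u (m + 2) k ≤ S.U (2 ^ (m + 2)) * ∑' c, ∑' t, ind (S.gp σ (l ++ [c]) (u ++ t) ∧
      S.h (u ++ t) ≤ S.h l + 2 ^ m ∧ 2 ^ m ≤ S.ht c ∧ 2 ^ k ≤ S.sz wd c) *
        (S.wt c * (S.w t * S.Lam (S.h l + 2 ^ m - S.h (u ++ t)))) := by
    unfold IN
    rw [← ENNReal.tsum_mul_left]
    refine ENNReal.tsum_le_tsum fun c => ?_
    by_cases hc : 2 ^ m ≤ S.ht c
    · refine (IN_cut σ l u c hN (by omega) huN).trans (mul_le_mul' le_rfl ?_)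
      exact ENNReal.tsum_le_tsum fun t => mul_le_mul' (ind_mono fun h => ⟨h.1, h.2.1, hc, h.2.2⟩) le_rfl
    · refine le_trans (le_of_eq ?_) bot_le
      rw [ENNReal.tsum_eq_zero.2]
      · rfl
      intro r
      rw [ind_false, zero_mul]
      rintro ⟨h4, h5, -⟩
      have h6 := le_of_size h5 (by omega)
      have h7 := h4.2.1
      rw [h_snoc] at h7
      rw [e1, hp2] at h6
      omega
  have h4 : S.U (2 ^ (m + 2)) ≤ 4 * S.U (2 ^ m) := by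
    have h5 : 2 ^ (m + 2) = 4 * 2 ^ m := by rw [pow_add]; ring
    rw [h5]
    exact_mod_cast S.U_mul_nat hb 4 (2 ^ m) (by norm_num)
  calc S.IN wd σ l u (m + 2) k ≤ _ := h3
    _ ≤ 4 * S.U (2 ^ m) * _ := mul_le_mul' h4 le_rfl
    _ = 4 * (S.U (2 ^ m) * _) := by rw [mul_assoc]
    _ ≤ 4 * (K * ρ₁ ^ (m - i) * ρ₂ ^ (k - m)) := mul_le_mul' le_rfl h2
    _ = 4 * K * ρ₁ ^ (m - i) * ρ₂ ^ (k - m) := by ring

/-- The constant of `IN_le`. -/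
noncomputable def KI (K ρ₁ : ℝ≥0∞) : ℝ≥0∞ := 4 * K * K * (ρ₁⁻¹ * ρ₁⁻¹)

theorem IN_le' {wd : S.B → ℕ} {K ρ₁ ρ₂ : ℝ≥0∞} (hH : S.Hit wd K ρ₁ ρ₂) (hR : S.Rho K ρ₂) (hb : Antitone S.b) (hK : 1 ≤ K)
    (h10 : ρ₁ ≠ 0) (h11 : ρ₁ ≤ 1) (h21 : ρ₂ ≤ 1) {σ : Bool} {l u : List S.B} {i j k : ℕ} (hjk : j ≤ k)
    (hl : S.h l < 2 ^ i) (hu : S.h l ≤ S.h u) (hd : S.ds σ l u ≤ 2 ^ i) :
    S.IN wd σ l u j k ≤ KI K ρ₁ * ρ₂ ^ (k - j) * ρ₁ ^ (j - i) := by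
  have h1t : ρ₁ ≠ ⊤ := ne_top_of_le_ne_top ENNReal.one_ne_top h11
  have h2 : ρ₁⁻¹ * ρ₁ = 1 := ENNReal.inv_mul_cancel h10 h1t
  have h3 : 1 ≤ ρ₁⁻¹ := ENNReal.one_le_inv.2 h11
  by_cases hij : i + 2 ≤ j
  · refine (IN_hit hH hb hij hjk hl hu hd).trans ?_
    have e1 : j - i = (j - 2 - i) + 2 := by omega
    have h4 : ρ₂ ^ (k - (j - 2)) ≤ ρ₂ ^ (k - j) := pow_le_pow_right_of_le_one' h21 (by omega)
    calc 4 * K * ρ₁ ^ (j - 2 - i) * ρ₂ ^ (k - (j - 2)) ≤ 4 * K * ρ₁ ^ (j - 2 - i) * ρ₂ ^ (k - j) := mul_le_mul' le_rfl h4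
      _ = 4 * K * 1 * 1 * ρ₁ ^ (j - 2 - i) * ρ₂ ^ (k - j) := by ring
      _ ≤ 4 * K * K * 1 * ρ₁ ^ (j - 2 - i) * ρ₂ ^ (k - j) := by gcongr
      _ = 4 * K * K * ((ρ₁⁻¹ * ρ₁) * (ρ₁⁻¹ * ρ₁)) * ρ₁ ^ (j - 2 - i) * ρ₂ ^ (k - j) := by rw [h2]; ring
      _ = KI K ρ₁ * ρ₂ ^ (k - j) * ρ₁ ^ (j - i) := by rw [e1, pow_add]; unfold KI; ring
  · refine (IN_triv hH hR σ l u hjk).trans ?_
    have h5 : ρ₁ ≤ ρ₁ ^ (j - i) := by
      rcases Nat.eq_zero_or_pos (j - i) with h6 | h6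
      · rw [h6, pow_zero]; exact h11
      · have h7 : j - i = 1 := by omega
        rw [h7, pow_one]
    calc K * K * ρ₂ ^ (k - j) = 1 * K * K * (1 * 1) * ρ₂ ^ (k - j) := by ring
      _ ≤ 4 * K * K * (ρ₁⁻¹ * 1) * ρ₂ ^ (k - j) := by gcongr; norm_num
      _ = 4 * K * K * (ρ₁⁻¹ * (ρ₁⁻¹ * ρ₁)) * ρ₂ ^ (k - j) := by rw [h2]
      _ = KI K ρ₁ * ρ₂ ^ (k - j) * ρ₁ := by unfold KI; ring
      _ ≤ KI K ρ₁ * ρ₂ ^ (k - j) * ρ₁ ^ (j - i) := mul_le_mul' le_rfl h5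

/-- The weight of a lower pair. -/
noncomputable def wg (ρ₁ : ℝ≥0∞) (g j D : ℕ) : ℝ≥0∞ := ρ₁ ^ (j - g) + ∑ i ∈ Ioc g j, ρ₁ ^ (j - i) * ind (2 ^ (i - 1) < D)

theorem IN_le {wd : S.B → ℕ} {K ρ₁ ρ₂ : ℝ≥0∞} (hH : S.Hit wd K ρ₁ ρ₂) (hR : S.Rho K ρ₂) (hb : Antitone S.b) (hK : 1 ≤ K)
    (h10 : ρ₁ ≠ 0) (h11 : ρ₁ ≤ 1) (h21 : ρ₂ ≤ 1) {σ : Bool} {l u : List S.B} {g j k : ℕ} (hgj : g ≤ j) (hjk : j ≤ k)
    (hl : Nat.size (S.h l) = g) (hu : S.h l ≤ S.h u) :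
    S.IN wd σ l u j k ≤ KI K ρ₁ * ρ₂ ^ (k - j) * wg ρ₁ g j (S.ds σ l u) := by
  have hlg := sizeV_lt hl
  by_cases hd : S.ds σ l u ≤ 2 ^ g
  · refine (IN_le' hH hR hb hK h10 h11 h21 hjk hlg hu hd).trans (mul_le_mul' le_rfl ?_)
    unfold wg
    exact le_self_add
  have hex : ∃ i, S.ds σ l u ≤ 2 ^ i := ⟨S.ds σ l u, (Nat.lt_two_pow_self).le⟩
  classical
  set i0 := Nat.find hex with hi0
  have h1 : S.ds σ l u ≤ 2 ^ i0 := Nat.find_spec hex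
  have h2 : g < i0 := by
    by_contra h3
    push Not at h3
    exact hd (h1.trans (Nat.pow_le_pow_right (by norm_num) h3))
  have h3 : 2 ^ (i0 - 1) < S.ds σ l u := by
    have := Nat.find_min hex (m := i0 - 1) (by omega)
    omega
  have hl0 : S.h l < 2 ^ i0 := lt_of_lt_of_le hlg (Nat.pow_le_pow_right (by norm_num) h2.le)
  refine (IN_le' hH hR hb hK h10 h11 h21 hjk hl0 hu h1).trans (mul_le_mul' le_rfl ?_)
  unfold wg
  by_cases h4 : i0 ≤ j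
  · refine le_trans ?_ (le_add_self)
    refine le_trans ?_ (Finset.single_le_sum (f := fun i => ρ₁ ^ (j - i) * ind (2 ^ (i - 1) < S.ds σ l u))
      (fun _ _ => bot_le) (Finset.mem_Ioc.2 ⟨h2, h4⟩))
    rw [ind_true h3, mul_one]
  · push Not at h4
    have e1 : j - i0 = 0 := by omega
    rw [e1, pow_zero]
    rcases Nat.eq_or_lt_of_le hgj with h5 | h5
    · rw [h5, Nat.sub_self, pow_zero]
      exact le_self_add
    · refine le_trans ?_ (le_add_self)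
      refine le_trans ?_ (Finset.single_le_sum (f := fun i => ρ₁ ^ (j - i) * ind (2 ^ (i - 1) < S.ds σ l u))
        (fun _ _ => bot_le) (Finset.mem_Ioc.2 ⟨h5, le_rfl⟩))
      have h6 : 2 ^ (j - 1) < S.ds σ l u :=
        lt_of_le_of_lt (Nat.pow_le_pow_right (by norm_num) (by omega)) h3
      rw [ind_true h6, mul_one, Nat.sub_self, pow_zero]

end Sys

end Pool.Agent.HEP
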