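import Pool.Agent.PLY.V.Defs

/-!
Project PLY, STEP 5, module Lower: the lower pair of a pair with a giant, and the distance of its ends.

* `lower`: if `(l ++ [c], u ++ r)` is a pair `gp σ` and `u` is the part of the other leg up to its first passage over the end of `l`, then
  `(u, l)` is a pair `gp (!σ)` (planarity `pl1`, `pl2`: the leg `l ++ [c]` can be continued above the level of the end of `u`).
* `ds_le`: if its gap is `< G` then the ends are at distance `≤ lsz u + G`.
-/

namespace Pool.Agent.HEP

open scoped ENNReal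
open Finset

namespace Sys

variable {S : Sys}

lemma h_snoc (l : List S.B) (c : S.B) : S.h (l ++ [c]) = S.h l + S.ht c := by
  rw [S.h_append, S.h_cons, S.h_nil, add_zero]

lemma w_snoc (l : List S.B) (c : S.B) : S.w (l ++ [c]) = S.w l * S.wt c := by
  rw [S.w_append, S.w_cons, S.w_nil, mul_one]

theorem gp_pre {σ : Bool} {l s t : List S.B} (h : S.gp σ l (s ++ t)) : S.gp σ l s := by
  obtain ⟨h1, h2, h3⟩ := h
  refine ⟨?_, ?_, fun s' r e => h3 s' (r ++ t) (by rw [e, List.append_assoc])⟩
  · have h1' : S.av σ (l ++ []) (s ++ t) := by rw [List.append_nil]; exact h1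
    exact S.av_pre h1'
  · rw [S.h_append] at h2
    omega

theorem lower {K : ℕ} (hG : S.Gyp K) {σ : Bool} {l u r : List S.B} {c : S.B} (h : S.gp σ (l ++ [c]) (u ++ r))
    (hF : S.FP (S.h l + d (!σ)) u) : S.gp (!σ) u l := by
  obtain ⟨hav, hh, -⟩ := h
  have hav1 : S.av σ (l ++ [c]) u := by
    have h1' : S.av σ ((l ++ [c]) ++ []) (u ++ r) := by rw [List.append_nil]; exact hav
    exact S.av_pre h1'
  have hav2 : S.av σ l u := by
    have h1' : S.av σ (l ++ [c]) (u ++ []) := by rw [List.append_nil]; exact hav1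
    exact S.av_pre h1'
  have hu := hF.1
  have hc := S.ht_pos c
  rw [h_snoc, S.h_append] at hh
  cases σ
  · refine ⟨?_, ?_, ?_⟩
    · exact hav2
    · simp only [Bool.not_false, d_true] at hu ⊢
      omega
    · intro t rest e
      have ht : S.h l = S.h t + S.h rest := by rw [e, S.h_append]
      simp only [Bool.not_false, d_true, d_false] at hu hh ⊢
      refine hG.pl1 u t (rest ++ [c]) ?_ ?_ ?_
      · have h2 := hav1
        rw [e, List.append_assoc] at h2
        exact h2
      · rw [← List.append_assoc, ← e, h_snoc]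
        omega
      · omega
  · refine ⟨?_, ?_, ?_⟩
    · exact hav2
    · simp only [Bool.not_true, d_false] at hu ⊢
      omega
    · intro t rest e
      have ht : S.h l = S.h t + S.h rest := by rw [e, S.h_append]
      simp only [Bool.not_true, d_true, d_false] at hu hh ⊢
      refine hG.pl2 u t (rest ++ [c]) ?_ ?_ ?_
      · have h2 := hav1
        rw [e, List.append_assoc] at h2
        exact h2
      · rw [← List.append_assoc, ← e, h_snoc]
        omega
      · omega

lemma ps_not (σ : Bool) (l : List S.B) : S.ps (!σ) l = S.pl σ l := by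
  cases σ <;> rfl

lemma pl_not (σ : Bool) (l : List S.B) : S.pl (!σ) l = S.ps σ l := by
  cases σ <;> rfl

lemma pl_nil (σ : Bool) : S.pl σ [] = 0 := by
  cases σ <;> rfl

lemma ps_nil (σ : Bool) : S.ps σ [] = 0 := by
  cases σ <;> rfl

theorem ds_le {wd : S.B → ℕ} {K ρ₁ ρ₂ : ℝ≥0∞} (hH : S.Hit wd K ρ₁ ρ₂) {τ : Bool} {u l : List S.B} {G : ℕ}
    (h : S.gp τ u l) (hF : S.FP (S.h l + d τ) u) (hG : l = [] ∨ ¬ S.os τ G u l) :
    S.ds (!τ) l u ≤ S.lsz wd u + G := by
  unfold ds
  rw [pl_not, ps_not]
  rcases List.eq_nil_or_concat u with hu | ⟨u', c, hu⟩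
  · subst hu
    have h0 := S.FP_nil.1 hF
    have hl : l = [] := S.h_eq_zero.1 (by omega)
    subst hl
    rw [ps_nil, pl_nil, S.h_nil]
    simp
  · rw [List.concat_eq_append] at hu
    subst hu
    have hF' := S.FP_snoc.1 hF
    have hd := d_le τ
    have hsz : S.lsz wd (u' ++ [c]) = S.sz wd c := S.lsz_snoc wd u' c
    have h1 : S.ht c ≤ S.sz wd c := le_max_left _ _
    have h2 : wd c ≤ S.sz wd c := le_max_right _ _
    rw [hsz, h_snoc]
    refine max_le (by omega) ?_
    by_cases hl : l = []
    · subst hl
      rw [S.h_nil] at hF'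
      have hu' : u' = [] := S.h_eq_zero.1 (by omega)
      subst hu'
      rw [ps_nil, List.nil_append]
      have h3 := S.pl_sub τ [c]
      have h4 : S.x [c] = S.dx c := by rw [S.x_cons, S.x_nil, add_zero]
      have h5 := hH.dx c
      rw [h4] at h3
      have h6 := abs_le.1 h3
      have h7 : |S.dx c| ≤ (wd c : ℤ) - 1 := by linarith
      have h8 := abs_le.1 h7
      omega
    · have hos := h.2.2 l [] (by rw [List.append_nil])
      have h3 := abs_le.1 (hH.hi τ (S.h l) u' c hF)
      have h4 := abs_le.1 (hH.lo τ (S.h l) u' c hF)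
      have h5 : ¬ S.os τ G (u' ++ [c]) l := hG.resolve_left hl
      unfold os at hos h5
      push Not at h5
      obtain ⟨-, h6, h7⟩ := h5
      rcases hos with hos | hos | hos
      · exact absurd hos hl
      · push_cast at hos
        omega
      · push_cast at hos
        omega

end Sys

end Pool.Agent.HEP
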