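import Pool.Agent.PLY.V.Pairs

/-!
Project PLY, STEP 5, module Main: THE CLOSING INDUCTION.

* `SP_le'`: the pairs with a giant are bounded by the weighted lower pairs (`tsum_split` at the first passage of the other leg, `lower`, `IN_le`).
* `TKs_le_SP`: `TK` is a sum of such pairs.
* `I1`: if the classes `< j` are controlled by `B` then `TK j k ≤ 2 KI ρ₂ ^ (k - j) (C B + TA j)`.
* `closed`: with the sharp fold estimate: everything is controlled by one constant `B`.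
* `giant`: the strong pairs, `SP σ g j k ≤ B' ρ₁ ^ (j - g) ρ₂ ^ (k - j)`.
-/

namespace Pool.Agent.HEP

open scoped ENNReal
open Finset Filter Topology

namespace Sys

variable {S : Sys}

theorem SP_le' {wd : S.B → ℕ} {KG : ℕ} {K ρ₁ ρ₂ : ℝ≥0∞} (hG : S.Gyp KG) (hH : S.Hit wd K ρ₁ ρ₂) (hR : S.Rho K ρ₂) (hK : 1 ≤ K)
    (h10 : ρ₁ ≠ 0) (h11 : ρ₁ ≤ 1) (h21 : ρ₂ ≤ 1) (σ : Bool) {g j k : ℕ} (hgj : g ≤ j) (hjk : j ≤ k) :
    S.SP wd σ g j k ≤ KI K ρ₁ * ρ₂ ^ (k - j) * S.PW ρ₁ (!σ) g j := by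
  have h1 : ∀ l, ∑' c, ∑' s, ind (S.gp σ (l ++ [c]) s ∧ S.h l + d (!σ) ≤ S.h s ∧ Nat.size (S.h l) = g ∧
      Nat.size (S.h s) = j ∧ 2 ^ k ≤ S.sz wd c) * (S.w l * S.wt c * S.w s) ≤
      ∑' u, ind (S.gp (!σ) u l ∧ S.FP (S.h l + d (!σ)) u ∧ Nat.size (S.h l) = g) * (S.w u * S.w l) * S.IN wd σ l u j k := by
    intro l
    rw [ENNReal.tsum_comm]
    calc ∑' s, ∑' c, ind (S.gp σ (l ++ [c]) s ∧ S.h l + d (!σ) ≤ S.h s ∧ Nat.size (S.h l) = g ∧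
          Nat.size (S.h s) = j ∧ 2 ^ k ≤ S.sz wd c) * (S.w l * S.wt c * S.w s)
        = ∑' s, ind (S.h l + d (!σ) ≤ S.h s) * ∑' c, ind (S.gp σ (l ++ [c]) s ∧ Nat.size (S.h l) = g ∧
          Nat.size (S.h s) = j ∧ 2 ^ k ≤ S.sz wd c) * (S.w l * S.wt c * S.w s) := by
          refine tsum_congr fun s => ?_
          rw [← ENNReal.tsum_mul_left]
          refine tsum_congr fun c => ?_
          rw [ind_congr (show (S.gp σ (l ++ [c]) s ∧ S.h l + d (!σ) ≤ S.h s ∧ Nat.size (S.h l) = g ∧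
            Nat.size (S.h s) = j ∧ 2 ^ k ≤ S.sz wd c) ↔ (S.h l + d (!σ) ≤ S.h s ∧ S.gp σ (l ++ [c]) s ∧
            Nat.size (S.h l) = g ∧ Nat.size (S.h s) = j ∧ 2 ^ k ≤ S.sz wd c) by tauto),
            ind_and (S.h l + d (!σ) ≤ S.h s) (S.gp σ (l ++ [c]) s ∧ Nat.size (S.h l) = g ∧ Nat.size (S.h s) = j ∧
              2 ^ k ≤ S.sz wd c)]
          ring
      _ = ∑' u, ind (S.FP (S.h l + d (!σ)) u) * ∑' r, ∑' c, ind (S.gp σ (l ++ [c]) (u ++ r) ∧ Nat.size (S.h l) = g ∧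
          Nat.size (S.h (u ++ r)) = j ∧ 2 ^ k ≤ S.sz wd c) * (S.w l * S.wt c * S.w (u ++ r)) :=
          S.tsum_split (S.h l + d (!σ)) _
      _ ≤ _ := by
          refine ENNReal.tsum_le_tsum fun u => ?_
          by_cases hF : S.FP (S.h l + d (!σ)) u
          · rw [ind_true hF, one_mul]
            by_cases hQ : S.gp (!σ) u l ∧ Nat.size (S.h l) = g
            · rw [ind_true ⟨hQ.1, hF, hQ.2⟩, one_mul, ENNReal.tsum_comm]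
              unfold IN
              rw [← ENNReal.tsum_mul_left]
              refine ENNReal.tsum_le_tsum fun c => ?_
              rw [← ENNReal.tsum_mul_left]
              refine ENNReal.tsum_le_tsum fun r => ?_
              rw [S.w_append]
              calc ind (S.gp σ (l ++ [c]) (u ++ r) ∧ Nat.size (S.h l) = g ∧ Nat.size (S.h (u ++ r)) = j ∧
                    2 ^ k ≤ S.sz wd c) * (S.w l * S.wt c * (S.w u * S.w r))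
                  ≤ ind (S.gp σ (l ++ [c]) (u ++ r) ∧ Nat.size (S.h (u ++ r)) = j ∧ 2 ^ k ≤ S.sz wd c) *
                    (S.w l * S.wt c * (S.w u * S.w r)) := mul_le_mul' (ind_mono fun h => ⟨h.1, h.2.2⟩) le_rfl
                _ = _ := by ring
            · refine le_trans (le_of_eq ?_) bot_le
              rw [ENNReal.tsum_eq_zero.2]
              · rfl
              intro r
              rw [ENNReal.tsum_eq_zero.2]
              intro c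
              rw [ind_false, zero_mul]
              rintro ⟨h2, h3, -⟩
              exact hQ ⟨lower hG h2 hF, h3⟩
          · rw [ind_false hF, zero_mul]
            exact bot_le
  calc S.SP wd σ g j k ≤ ∑' l, ∑' u, ind (S.gp (!σ) u l ∧ S.FP (S.h l + d (!σ)) u ∧ Nat.size (S.h l) = g) *
        (S.w u * S.w l) * S.IN wd σ l u j k := ENNReal.tsum_le_tsum h1
    _ ≤ ∑' l, ∑' u, KI K ρ₁ * ρ₂ ^ (k - j) * (ind (S.gp (!σ) u l ∧ S.FP (S.h l + d (!σ)) u ∧ Nat.size (S.h l) = g) *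
        (S.w u * S.w l) * wg ρ₁ g j (S.ds (!(!σ)) l u)) := by
        refine ENNReal.tsum_le_tsum fun l => ENNReal.tsum_le_tsum fun u => ?_
        by_cases hP : S.gp (!σ) u l ∧ S.FP (S.h l + d (!σ)) u ∧ Nat.size (S.h l) = g
        · rw [ind_true hP, one_mul, Bool.not_not]
          have h2 := IN_le hH hR hG.anti hK h10 h11 h21 (σ := σ) hgj hjk hP.2.2
            ((Nat.le_add_right _ _).trans hP.2.1.1)
          refine (mul_le_mul' le_rfl h2).trans (le_of_eq ?_)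
          ring
        · rw [ind_false hP, zero_mul, zero_mul]
          exact bot_le
    _ = KI K ρ₁ * ρ₂ ^ (k - j) * S.PW ρ₁ (!σ) g j := by
        unfold PW
        rw [ENNReal.tsum_comm, ← ENNReal.tsum_mul_left]
        refine tsum_congr fun u => ?_
        rw [← ENNReal.tsum_mul_left]

lemma d_add_not (σ : Bool) : d σ + d (!σ) = 1 := by
  cases σ <;> rfl

theorem TKs_le_SP (wd : S.B → ℕ) (σ : Bool) (j k : ℕ) : S.TKs wd σ j k ≤ ∑ g ∈ range (j + 1), S.SP wd σ g j k := by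
  unfold TKs
  rw [Alph.tsum_snoc]
  have e0 : ∑' s, ind (S.gp σ [] s ∧ S.FP (S.h s + d σ) [] ∧ Nat.size (S.h s) = j ∧ 2 ^ k ≤ S.lsz wd []) *
      (S.w [] * S.w s) = 0 := by
    rw [ENNReal.tsum_eq_zero]
    intro s
    rw [ind_false, zero_mul]
    rintro ⟨-, -, -, h⟩
    rw [lsz_nil] at h
    exact absurd h (by have := Nat.one_le_two_pow (n := k); omega)
  rw [e0, zero_add]
  unfold SP
  rw [← Summable.tsum_finsetSum (fun _ _ => ENNReal.summable)]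
  refine ENNReal.tsum_le_tsum fun l => ?_
  rw [← Summable.tsum_finsetSum (fun _ _ => ENNReal.summable)]
  refine ENNReal.tsum_le_tsum fun c => ?_
  rw [← Summable.tsum_finsetSum (fun _ _ => ENNReal.summable)]
  refine ENNReal.tsum_le_tsum fun s => ?_
  by_cases hP : S.gp σ (l ++ [c]) s ∧ S.FP (S.h s + d σ) (l ++ [c]) ∧ Nat.size (S.h s) = j ∧ 2 ^ k ≤ S.lsz wd (l ++ [c])
  · obtain ⟨h1, h2, h3, h4⟩ := hP
    have h5 := S.FP_snoc.1 h2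
    have h6 := d_add_not σ
    rw [lsz_snoc] at h4
    have h7 : S.h l + d (!σ) ≤ S.h s := by omega
    have h8 : Nat.size (S.h l) ≤ j := by
      rw [← h3]
      exact Nat.size_le_size (by omega)
    refine le_trans ?_ (Finset.single_le_sum (f := fun g => ind (S.gp σ (l ++ [c]) s ∧ S.h l + d (!σ) ≤ S.h s ∧
      Nat.size (S.h l) = g ∧ Nat.size (S.h s) = j ∧ 2 ^ k ≤ S.sz wd c) * (S.w l * S.wt c * S.w s))
      (fun _ _ => bot_le) (Finset.mem_range.2 (Nat.lt_succ_of_le h8)))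
    exact mul_le_mul' ((ind_le_one _).trans (ind_true ⟨h1, h7, rfl, h3, h4⟩).ge) (by rw [w_snoc])
  · rw [ind_false hP, zero_mul]
    exact bot_le

theorem I1 {wd : S.B → ℕ} {KG : ℕ} {K ρ₁ ρ₂ ρ B : ℝ≥0∞} (hG : S.Gyp KG) (hb : ∀ N, S.b N ≠ 0) (hH : S.Hit wd K ρ₁ ρ₂)
    (hR : S.Rho K ρ₂) (hK : 1 ≤ K) (hρ : 2⁻¹ ≤ ρ) (h1 : ρ ≤ 1) (h10 : ρ₁ ≠ 0) (h11 : ρ₁ ≤ 1) (h21 : ρ₂ ≤ 1)
    (hB : 1 ≤ B) (j k : ℕ) (hjk : j ≤ k)
    (hlow : ∀ a < j, S.TA a ≤ B ∧ ∀ k, a ≤ k → S.TK wd a k ≤ B * ρ ^ (k - a)) :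
    S.TK wd j k ≤ 2 * (KI K ρ₁ * ρ₂ ^ (k - j) * (C2 KG ρ ρ₁ * B * (1 - ρ₁)⁻¹ + S.TA j)) := by
  have h2 : ∀ σ, S.TKs wd σ j k ≤ KI K ρ₁ * ρ₂ ^ (k - j) * (C2 KG ρ ρ₁ * B * (1 - ρ₁)⁻¹ + S.TA j) := by
    intro σ
    refine (TKs_le_SP wd σ j k).trans ?_
    rw [Finset.sum_range_succ]
    have h3 : ∑ g ∈ range j, S.SP wd σ g j k ≤ KI K ρ₁ * ρ₂ ^ (k - j) * (C2 KG ρ ρ₁ * B * (1 - ρ₁)⁻¹) := by
      calc ∑ g ∈ range j, S.SP wd σ g j k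
          ≤ ∑ g ∈ range j, KI K ρ₁ * ρ₂ ^ (k - j) * (C2 KG ρ ρ₁ * B * ρ₁ ^ (j - g)) := by
            refine Finset.sum_le_sum fun g hg => ?_
            have hg' := Finset.mem_range.1 hg
            refine (SP_le' hG hH hR hK h10 h11 h21 σ hg'.le hjk).trans (mul_le_mul' le_rfl ?_)
            exact pairs_le hG hb hH hρ h1 h10 h11 hB (!σ) g j (hlow g hg').1 (hlow g hg').2
        _ = KI K ρ₁ * ρ₂ ^ (k - j) * (C2 KG ρ ρ₁ * B * ∑ g ∈ range j, ρ₁ ^ (j - g)) := by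
            rw [Finset.mul_sum, Finset.mul_sum]
        _ ≤ _ := by
            refine mul_le_mul' le_rfl (mul_le_mul' le_rfl ?_)
            rw [← ENNReal.tsum_geometric]
            refine le_trans (le_of_eq ?_) (ENNReal.sum_le_tsum ((range j).image fun g => j - g))
            rw [Finset.sum_image]
            intro a ha b hb h
            rw [Finset.mem_coe, Finset.mem_range] at ha hb
            simp only at h
            omega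
    have h4 : S.SP wd σ j j k ≤ KI K ρ₁ * ρ₂ ^ (k - j) * S.TA j := by
      refine (SP_le' hG hH hR hK h10 h11 h21 σ le_rfl hjk).trans (mul_le_mul' le_rfl ?_)
      rw [PW_self]
      exact TAs_le _ _
    refine (add_le_add h3 h4).trans (le_of_eq ?_)
    ring
  rw [TK_eq, two_mul]
  exact add_le_add (h2 true) (h2 false)

lemma TK_le_TA (wd : S.B → ℕ) (g k : ℕ) : S.TK wd g k ≤ S.TA g := by
  unfold TK TA
  refine Finset.sum_le_sum fun σ _ => ?_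
  exact ENNReal.tsum_le_tsum fun l => ENNReal.tsum_le_tsum fun s =>
    mul_le_mul' (ind_mono fun h => ⟨h.1, h.2.1, h.2.2.1⟩) le_rfl

/-- **The closed fold estimate**: bounded mass, power tail of the last block. -/
theorem closed {wd : S.B → ℕ} {KG : ℕ} {K ρ₁ ρ₂ ρ : ℝ≥0∞} (hG : S.Gyp KG) (hb : ∀ N, S.b N ≠ 0) (hH : S.Hit wd K ρ₁ ρ₂)
    (hR : S.Rho K ρ₂) (hK : 1 ≤ K) (hKt : K ≠ ⊤) (hρ : 2⁻¹ ≤ ρ) (h2 : ρ₂ < ρ) (h1 : ρ < ρ₁) (h11 : ρ₁ < 1)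
    (hS : S.Sharp wd ρ) :
    ∃ B : ℝ≥0∞, 1 ≤ B ∧ B ≠ ⊤ ∧ ∀ g, S.TA g ≤ B ∧ ∀ k, g ≤ k → S.TK wd g k ≤ B * ρ ^ (k - g) := by
  have hρ1 : ρ ≤ 1 := (h1.trans h11).le
  have h0 : ρ ≠ 0 := (lt_of_le_of_lt bot_le h2).ne'
  have ht : ρ ≠ ⊤ := ne_top_of_le_ne_top ENNReal.one_ne_top hρ1
  have h10 : ρ₁ ≠ 0 := (lt_of_le_of_lt bot_le h1).ne'
  have h1t : ρ₁ ≠ ⊤ := ne_top_of_le_ne_top ENNReal.one_ne_top h11.le
  have hr : ρ * ρ₁⁻¹ < 1 := by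
    rw [← div_eq_mul_inv]
    exact (ENNReal.div_lt_iff (Or.inl h10) (Or.inl h1t)).2 (by rwa [one_mul])
  set C1 : ℝ≥0∞ := 2 * (KI K ρ₁ * (C2 KG ρ ρ₁ * (1 - ρ₁)⁻¹ + 1)) with hC1
  have hinv0 : ρ⁻¹ ≠ ⊤ := ENNReal.inv_ne_top.2 h0
  have hinv1 : ρ₁⁻¹ ≠ ⊤ := ENNReal.inv_ne_top.2 h10
  have hinv2 : (1 - ρ₁)⁻¹ ≠ ⊤ := ENNReal.inv_ne_top.2 (tsub_pos_of_lt h11).ne'
  have hinv3 : (1 - ρ * ρ₁⁻¹)⁻¹ ≠ ⊤ := ENNReal.inv_ne_top.2 (tsub_pos_of_lt hr).ne'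
  have hC1t : C1 ≠ ⊤ := by
    rw [hC1]
    unfold KI C2 CG
    finiteness
  have hq : ρ₂ * ρ⁻¹ < 1 := by
    rw [← div_eq_mul_inv]
    exact (ENNReal.div_lt_iff (Or.inl h0) (Or.inl ht)).2 (by rwa [one_mul])
  obtain ⟨k0, hk0⟩ : ∃ k0, C1 * (ρ₂ * ρ⁻¹) ^ k0 ≤ 1 := by
    have h3 : Tendsto (fun n => C1 * (ρ₂ * ρ⁻¹) ^ n) atTop (𝓝 (C1 * 0)) :=
      ENNReal.Tendsto.const_mul (ENNReal.tendsto_pow_atTop_nhds_zero_iff.2 hq) (Or.inr hC1t)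
    rw [mul_zero] at h3
    exact ((h3.eventually (ge_mem_nhds zero_lt_one)).exists)
  have hk1 : ∀ n, k0 ≤ n → C1 * ρ₂ ^ n ≤ ρ ^ n := by
    intro n hn
    have h4 : ρ₂ ^ n = (ρ₂ * ρ⁻¹) ^ n * ρ ^ n := by
      rw [← mul_pow, mul_assoc, ENNReal.inv_mul_cancel h0 ht, mul_one]
    rw [h4, ← mul_assoc]
    refine (mul_le_mul' (?_ : C1 * (ρ₂ * ρ⁻¹) ^ n ≤ 1) le_rfl).trans (le_of_eq (one_mul _))
    exact (mul_le_mul' le_rfl (pow_le_pow_right_of_le_one' hq.le hn)).trans hk0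
  have hp0 : ρ ^ k0 ≠ 0 := pow_ne_zero _ h0
  have hpt : ρ ^ k0 ≠ ⊤ := ENNReal.pow_ne_top ht
  obtain ⟨C, hCt, hC⟩ := hS (ρ ^ k0 / 2) (ENNReal.div_ne_zero.2 ⟨hp0, by norm_num⟩)
  refine ⟨1 + 2 * C * (ρ ^ k0)⁻¹, le_self_add, ?_, ?_⟩
  · have h5 : (ρ ^ k0)⁻¹ ≠ ⊤ := ENNReal.inv_ne_top.2 hp0
    finiteness
  set B : ℝ≥0∞ := 1 + 2 * C * (ρ ^ k0)⁻¹ with hB
  have hB1 : 1 ≤ B := le_self_add
  have hCB : C ≤ ρ ^ k0 / 2 * B := by
    have h6 : ρ ^ k0 * (ρ ^ k0)⁻¹ = 1 := ENNReal.mul_inv_cancel hp0 hpt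
    have h7 : (2 : ℝ≥0∞)⁻¹ * 2 = 1 := ENNReal.inv_mul_cancel (by norm_num) (by norm_num)
    calc C = (ρ ^ k0 * (ρ ^ k0)⁻¹) * (2⁻¹ * 2) * C := by rw [h6, h7]; ring
      _ = ρ ^ k0 / 2 * (2 * C * (ρ ^ k0)⁻¹) := by rw [div_eq_mul_inv]; ring
      _ ≤ ρ ^ k0 / 2 * B := mul_le_mul' le_rfl (by rw [hB]; exact le_add_self)
  have hTA : ∀ g, (∀ a < g, S.TA a ≤ B ∧ ∀ k, a ≤ k → S.TK wd a k ≤ B * ρ ^ (k - a)) → S.TA g ≤ B * ρ ^ k0 := by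
    intro g hg
    refine (hC g B hg).trans ((add_le_add hCB le_rfl).trans (le_of_eq ?_))
    rw [← two_mul, ← mul_assoc, ENNReal.mul_div_cancel (by norm_num) (by norm_num), mul_comm]
  intro g
  induction g using Nat.strong_induction_on with
  | _ g ih =>
    have h8 := hTA g ih
    have h9 : S.TA g ≤ B := h8.trans ((mul_le_mul' le_rfl (pow_le_one' hρ1 k0)).trans (le_of_eq (mul_one B)))
    refine ⟨h9, fun k hk => ?_⟩
    rcases Nat.lt_or_ge (k - g) k0 with h12 | h12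
    · exact (TK_le_TA wd g k).trans (h8.trans (mul_le_mul' le_rfl (pow_le_pow_right_of_le_one' hρ1 h12.le)))
    · refine (I1 hG hb hH hR hK hρ hρ1 h10 h11.le (h2.le.trans hρ1) hB1 g k hk ih).trans ?_
      calc 2 * (KI K ρ₁ * ρ₂ ^ (k - g) * (C2 KG ρ ρ₁ * B * (1 - ρ₁)⁻¹ + S.TA g))
          ≤ 2 * (KI K ρ₁ * ρ₂ ^ (k - g) * (C2 KG ρ ρ₁ * B * (1 - ρ₁)⁻¹ + B)) := by gcongr
        _ = B * (C1 * ρ₂ ^ (k - g)) := by rw [hC1]; ring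
        _ ≤ B * ρ ^ (k - g) := mul_le_mul' le_rfl (hk1 _ h12)

/-- **The strong pairs.** -/
theorem giant {wd : S.B → ℕ} {KG : ℕ} {K ρ₁ ρ₂ ρ B : ℝ≥0∞} (hG : S.Gyp KG) (hb : ∀ N, S.b N ≠ 0) (hH : S.Hit wd K ρ₁ ρ₂)
    (hR : S.Rho K ρ₂) (hK : 1 ≤ K) (hρ : 2⁻¹ ≤ ρ) (h1 : ρ ≤ 1) (h10 : ρ₁ ≠ 0) (h11 : ρ₁ ≤ 1) (h21 : ρ₂ ≤ 1)
    (hB : 1 ≤ B) (hlow : ∀ g, S.TA g ≤ B ∧ ∀ k, g ≤ k → S.TK wd g k ≤ B * ρ ^ (k - g)) (σ : Bool) (g j k : ℕ)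
    (hgj : g ≤ j) (hjk : j ≤ k) :
    S.SP wd σ g j k ≤ KI K ρ₁ * C2 KG ρ ρ₁ * B * ρ₁ ^ (j - g) * ρ₂ ^ (k - j) := by
  refine (SP_le' hG hH hR hK h10 h11 h21 σ hgj hjk).trans ?_
  refine (mul_le_mul' le_rfl (pairs_le hG hb hH hρ h1 h10 h11 hB (!σ) g j (hlow g).1 (hlow g).2)).trans (le_of_eq ?_)
  ring

end Sys

end Pool.Agent.HEP
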