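import Pool.Agent.PLY.V.Inner
import Pool.Agent.PLF.Good

/-!
Project PLY, STEP 5, module Pairs: the sum over the lower pairs `(u, l)` of class `g` with the weight `wg` of the distance of their ends.

`MM` = pairs with ends at distance `> 2 ^ (i - 1)`: either the gap is `≥ 2 ^ (i - 2)` (`Gyp.gap`, PLF/Good) or the last block of `u` has size
`≥ 2 ^ (i - 2)` (`ds_le`).
-/

namespace Pool.Agent.HEP

open scoped ENNReal
open Finset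

namespace Sys

variable {S : Sys}

/-- One side of `TA`. -/
noncomputable def TAs (S : Sys) (τ : Bool) (g : ℕ) : ℝ≥0∞ :=
  ∑' l, ∑' s, ind (S.gp τ l s ∧ S.FP (S.h s + d τ) l ∧ Nat.size (S.h s) = g) * (S.w l * S.w s)

/-- One side of `TK`. -/
noncomputable def TKs (S : Sys) (wd : S.B → ℕ) (τ : Bool) (g k : ℕ) : ℝ≥0∞ :=
  ∑' l, ∑' s, ind (S.gp τ l s ∧ S.FP (S.h s + d τ) l ∧ Nat.size (S.h s) = g ∧ 2 ^ k ≤ S.lsz wd l) * (S.w l * S.w s)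

lemma TA_eq (g : ℕ) : S.TA g = S.TAs true g + S.TAs false g := by
  unfold TA TAs
  rw [Fintype.sum_bool]

lemma TK_eq (wd : S.B → ℕ) (g k : ℕ) : S.TK wd g k = S.TKs wd true g k + S.TKs wd false g k := by
  unfold TK TKs
  rw [Fintype.sum_bool]

lemma TAs_le (τ : Bool) (g : ℕ) : S.TAs τ g ≤ S.TA g := by
  rw [TA_eq]
  cases τ
  · exact le_add_self
  · exact le_self_add

lemma TKs_le (wd : S.B → ℕ) (τ : Bool) (g k : ℕ) : S.TKs wd τ g k ≤ S.TK wd g k := by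
  rw [TK_eq]
  cases τ
  · exact le_add_self
  · exact le_self_add

/-- Lower pairs with ends at distance `> 2 ^ (i - 1)`. -/
noncomputable def MM (S : Sys) (τ : Bool) (g i : ℕ) : ℝ≥0∞ :=
  ∑' u, ∑' l, ind (S.gp τ u l ∧ S.FP (S.h l + d τ) u ∧ Nat.size (S.h l) = g ∧ 2 ^ (i - 1) < S.ds (!τ) l u) * (S.w u * S.w l)

/-- Lower pairs with a large gap. -/
noncomputable def GD (S : Sys) (τ : Bool) (g G : ℕ) : ℝ≥0∞ :=
  ∑' u, ∑' l, ind (S.good τ G u l ∧ S.FP (S.h l + d τ) u ∧ Nat.size (S.h l) = g ∧ l ≠ []) * (S.w u * S.w l)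

lemma MM_le_TAs (τ : Bool) (g i : ℕ) : S.MM τ g i ≤ S.TAs τ g := by
  unfold MM TAs
  exact ENNReal.tsum_le_tsum fun u => ENNReal.tsum_le_tsum fun l =>
    mul_le_mul' (ind_mono fun h => ⟨h.1, h.2.1, h.2.2.1⟩) le_rfl

theorem GD_le {KG : ℕ} (hG : S.Gyp KG) (hb : ∀ N, S.b N ≠ 0) (τ : Bool) (g G : ℕ) (hg : 1 ≤ G) :
    (G : ℝ≥0∞) * S.GD τ g G ≤ 2 ^ g * (2 * KG) := by
  have h1 : S.GD τ g G ≤ ∑ q ∈ Ico 1 (2 ^ g), ∑' u, ∑' l, ind (S.good τ G u l ∧ S.FP (q + d τ) u ∧ S.h l = q) *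
      (S.w u * S.w l) := by
    unfold GD
    rw [← Summable.tsum_finsetSum (fun _ _ => ENNReal.summable)]
    refine ENNReal.tsum_le_tsum fun u => ?_
    rw [← Summable.tsum_finsetSum (fun _ _ => ENNReal.summable)]
    refine ENNReal.tsum_le_tsum fun l => ?_
    by_cases hP : S.good τ G u l ∧ S.FP (S.h l + d τ) u ∧ Nat.size (S.h l) = g ∧ l ≠ []
    · have h2 := sizeV_lt hP.2.2.1
      have h3 : S.h l ≠ 0 := fun h => hP.2.2.2 (S.h_eq_zero.1 h)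
      refine le_trans ?_ (Finset.single_le_sum (f := fun q => ind (S.good τ G u l ∧ S.FP (q + d τ) u ∧ S.h l = q) *
        (S.w u * S.w l)) (fun _ _ => bot_le) (Finset.mem_Ico.2 ⟨(by omega : 1 ≤ S.h l), h2⟩))
      exact mul_le_mul' (ind_mono fun h => ⟨h.1, h.2.1, rfl⟩) le_rfl
    · rw [ind_false hP, zero_mul]
      exact bot_le
  calc (G : ℝ≥0∞) * S.GD τ g G ≤ G * _ := mul_le_mul' le_rfl h1
    _ = ∑ q ∈ Ico 1 (2 ^ g), (G : ℝ≥0∞) * ∑' u, ∑' l, ind (S.good τ G u l ∧ S.FP (q + d τ) u ∧ S.h l = q) *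
        (S.w u * S.w l) := by rw [Finset.mul_sum]
    _ ≤ ∑ _q ∈ Ico 1 (2 ^ g), (2 * KG : ℝ≥0∞) := by
        refine Finset.sum_le_sum fun q hq => ?_
        exact gap_le hG hb τ G q hg (Finset.mem_Ico.1 hq).1
    _ = ((2 ^ g - 1 : ℕ) : ℝ≥0∞) * (2 * KG) := by
        rw [Finset.sum_const, Nat.card_Ico, nsmul_eq_mul]
    _ ≤ 2 ^ g * (2 * KG) := by
        refine mul_le_mul' ?_ le_rfl
        have h2 : ((2 ^ g - 1 : ℕ) : ℝ≥0∞) ≤ ((2 ^ g : ℕ) : ℝ≥0∞) := Nat.cast_le.2 (Nat.sub_le _ _)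
        refine h2.trans (le_of_eq ?_)
        push_cast
        rfl

theorem MM_le {wd : S.B → ℕ} {KG : ℕ} {K ρ₁ ρ₂ ρ : ℝ≥0∞} (hG : S.Gyp KG) (hb : ∀ N, S.b N ≠ 0)
    (hH : S.Hit wd K ρ₁ ρ₂) (hρ : 2⁻¹ ≤ ρ) (τ : Bool) {g i : ℕ} (hi : g + 2 ≤ i) :
    S.MM τ g i ≤ 2 * KG * ρ ^ (i - 2 - g) + S.TKs wd τ g (i - 2) := by
  have h1 : S.MM τ g i ≤ S.GD τ g (2 ^ (i - 2)) + S.TKs wd τ g (i - 2) := by
    unfold MM GD TKs
    rw [← ENNReal.tsum_add]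
    refine ENNReal.tsum_le_tsum fun u => ?_
    rw [← ENNReal.tsum_add]
    refine ENNReal.tsum_le_tsum fun l => ?_
    rw [← add_mul]
    refine mul_le_mul' ?_ le_rfl
    by_cases hP : S.gp τ u l ∧ S.FP (S.h l + d τ) u ∧ Nat.size (S.h l) = g ∧ 2 ^ (i - 1) < S.ds (!τ) l u
    · obtain ⟨h2, h3, h4, h5⟩ := hP
      by_cases hQ : l = [] ∨ ¬ S.os τ (2 ^ (i - 2)) u l
      · have h6 := ds_le hH h2 h3 hQ
        have h7 : 2 ^ (i - 1) = 2 * 2 ^ (i - 2) := by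
          obtain ⟨m, rfl⟩ : ∃ m, i = m + 2 := ⟨i - 2, by omega⟩
          have e1 : m + 2 - 1 = m + 1 := by omega
          have e2 : m + 2 - 2 = m := by omega
          rw [e1, e2, pow_succ]; ring
        refine le_trans (ind_le_one _) (le_trans (le_of_eq ?_) le_add_self)
        rw [ind_true ⟨h2, h3, h4, (by omega : 2 ^ (i - 2) ≤ S.lsz wd u)⟩]
      · push Not at hQ
        refine le_trans (ind_le_one _) (le_trans (le_of_eq ?_) le_self_add)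
        rw [ind_true ⟨⟨h2.1, h2.2.1, hQ.2⟩, h3, h4, hQ.1⟩]
    · rw [ind_false hP]
      exact bot_le
  refine h1.trans (add_le_add ?_ le_rfl)
  have h2 := GD_le hG hb τ g (2 ^ (i - 2)) Nat.one_le_two_pow
  obtain ⟨m, rfl⟩ : ∃ m, i = g + 2 + m := ⟨i - (g + 2), by omega⟩
  have e1 : g + 2 + m - 2 - g = m := by omega
  have e2 : g + 2 + m - 2 = g + m := by omega
  rw [e1]
  rw [e2] at h2 ⊢
  have h20 : (2 : ℝ≥0∞) ^ g ≠ 0 := pow_ne_zero _ (by norm_num)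
  have h2t : (2 : ℝ≥0∞) ^ g ≠ ⊤ := ENNReal.pow_ne_top (by norm_num)
  have h3 : (2 : ℝ≥0∞) ^ m * S.GD τ g (2 ^ (g + m)) ≤ 2 * KG := by
    refine (ENNReal.mul_le_mul_iff_right h20 h2t).1 (le_trans (le_of_eq ?_) h2)
    push_cast
    rw [pow_add]
    ring
  have h4 : (2 : ℝ≥0∞)⁻¹ * 2 = 1 := ENNReal.inv_mul_cancel (by norm_num) (by norm_num)
  calc S.GD τ g (2 ^ (g + m)) = (2⁻¹ * 2) ^ m * S.GD τ g (2 ^ (g + m)) := by rw [h4, one_pow, one_mul]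
    _ = 2⁻¹ ^ m * (2 ^ m * S.GD τ g (2 ^ (g + m))) := by rw [mul_pow]; ring
    _ ≤ ρ ^ m * (2 * KG) := mul_le_mul' (pow_le_pow_left' hρ m) h3
    _ = 2 * KG * ρ ^ m := by ring

/-- The constant of the geometric sum. -/
noncomputable def CG (ρ ρ₁ : ℝ≥0∞) : ℝ≥0∞ := ρ⁻¹ * ρ⁻¹ * (1 - ρ * ρ₁⁻¹)⁻¹

lemma geo_le {ρ ρ₁ : ℝ≥0∞} (h0 : ρ ≠ 0) (h1 : ρ ≤ 1) (h10 : ρ₁ ≠ 0) (h11 : ρ₁ ≤ 1) (g j : ℕ) :
    ∑ i ∈ Ioc g j, ρ₁ ^ (j - i) * ρ ^ (i - 2 - g) ≤ CG ρ ρ₁ * ρ₁ ^ (j - g) := by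
  have h1t : ρ₁ ≠ ⊤ := ne_top_of_le_ne_top ENNReal.one_ne_top h11
  have ht : ρ ≠ ⊤ := ne_top_of_le_ne_top ENNReal.one_ne_top h1
  have hc : ρ₁ * ρ₁⁻¹ = 1 := ENNReal.mul_inv_cancel h10 h1t
  have hc' : ρ⁻¹ * ρ = 1 := ENNReal.inv_mul_cancel h0 ht
  have hi : 1 ≤ ρ⁻¹ := ENNReal.one_le_inv.2 h1
  have h2 : ∀ i ∈ Ioc g j, ρ₁ ^ (j - i) * ρ ^ (i - 2 - g) ≤ ρ₁ ^ (j - g) * (ρ⁻¹ * ρ⁻¹) * (ρ * ρ₁⁻¹) ^ (i - g) := by
    intro i hi'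
    rw [Finset.mem_Ioc] at hi'
    have e1 : ρ₁ ^ (j - i) = ρ₁ ^ (j - g) * ρ₁⁻¹ ^ (i - g) := by
      have e2 : j - g = (j - i) + (i - g) := by omega
      rw [e2, pow_add, mul_assoc, ← mul_pow, hc, one_pow, mul_one]
    have e3 : ρ ^ (i - 2 - g) ≤ ρ⁻¹ * ρ⁻¹ * ρ ^ (i - g) := by
      rcases Nat.lt_or_ge i (g + 2) with h3 | h3
      · have e4 : i - 2 - g = 0 := by omega
        have e5 : i - g = 1 := by omega
        rw [e4, e5, pow_zero, pow_one, mul_assoc, hc', mul_one]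
        exact hi
      · have e4 : i - g = (i - 2 - g) + 2 := by omega
        rw [e4, pow_add]
        refine le_of_eq ?_
        calc ρ ^ (i - 2 - g) = ρ ^ (i - 2 - g) * ((ρ⁻¹ * ρ) * (ρ⁻¹ * ρ)) := by rw [hc']; ring
          _ = ρ⁻¹ * ρ⁻¹ * (ρ ^ (i - 2 - g) * ρ ^ 2) := by ring
    calc ρ₁ ^ (j - i) * ρ ^ (i - 2 - g) ≤ (ρ₁ ^ (j - g) * ρ₁⁻¹ ^ (i - g)) * (ρ⁻¹ * ρ⁻¹ * ρ ^ (i - g)) :=
          mul_le_mul' e1.le e3
      _ = ρ₁ ^ (j - g) * (ρ⁻¹ * ρ⁻¹) * (ρ * ρ₁⁻¹) ^ (i - g) := by rw [mul_pow]; ring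
  refine (Finset.sum_le_sum h2).trans ?_
  rw [← Finset.mul_sum]
  have h3 : ∑ i ∈ Ioc g j, (ρ * ρ₁⁻¹) ^ (i - g) ≤ (1 - ρ * ρ₁⁻¹)⁻¹ := by
    rw [← ENNReal.tsum_geometric]
    refine le_trans (le_of_eq ?_) (ENNReal.sum_le_tsum ((Ioc g j).image fun i => i - g))
    rw [Finset.sum_image]
    intro a ha b hb h
    rw [Finset.mem_coe, Finset.mem_Ioc] at ha hb
    simp only at h
    omega
  refine (mul_le_mul' le_rfl h3).trans (le_of_eq ?_)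
  unfold CG
  ring

/-- The constant of `pairs_le`. -/
noncomputable def C2 (KG : ℕ) (ρ ρ₁ : ℝ≥0∞) : ℝ≥0∞ := 1 + (2 * KG + 1) * CG ρ ρ₁

/-- The weighted sum over the lower pairs. -/
noncomputable def PW (S : Sys) (ρ₁ : ℝ≥0∞) (τ : Bool) (g j : ℕ) : ℝ≥0∞ :=
  ∑' u, ∑' l, ind (S.gp τ u l ∧ S.FP (S.h l + d τ) u ∧ Nat.size (S.h l) = g) * (S.w u * S.w l) *
    wg ρ₁ g j (S.ds (!τ) l u)

lemma PW_eq (ρ₁ : ℝ≥0∞) (τ : Bool) (g j : ℕ) :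
    S.PW ρ₁ τ g j = ρ₁ ^ (j - g) * S.TAs τ g + ∑ i ∈ Ioc g j, ρ₁ ^ (j - i) * S.MM τ g i := by
  have e1 : ∀ i, ρ₁ ^ (j - i) * S.MM τ g i = ∑' u, ∑' l, ρ₁ ^ (j - i) * (ind (S.gp τ u l ∧ S.FP (S.h l + d τ) u ∧
      Nat.size (S.h l) = g ∧ 2 ^ (i - 1) < S.ds (!τ) l u) * (S.w u * S.w l)) := by
    intro i
    unfold MM
    rw [← ENNReal.tsum_mul_left]
    exact tsum_congr fun u => ENNReal.tsum_mul_left.symm
  have e2 : ρ₁ ^ (j - g) * S.TAs τ g = ∑' u, ∑' l, ρ₁ ^ (j - g) * (ind (S.gp τ u l ∧ S.FP (S.h l + d τ) u ∧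
      Nat.size (S.h l) = g) * (S.w u * S.w l)) := by
    unfold TAs
    rw [← ENNReal.tsum_mul_left]
    exact tsum_congr fun u => ENNReal.tsum_mul_left.symm
  rw [e2, Finset.sum_congr rfl fun i _ => e1 i, ← Summable.tsum_finsetSum (fun _ _ => ENNReal.summable), ← ENNReal.tsum_add]
  unfold PW
  refine tsum_congr fun u => ?_
  rw [← Summable.tsum_finsetSum (fun _ _ => ENNReal.summable), ← ENNReal.tsum_add]
  refine tsum_congr fun l => ?_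
  unfold wg
  rw [mul_add, Finset.mul_sum]
  congr 1
  · ring
  · refine Finset.sum_congr rfl fun i _ => ?_
    rw [ind_congr (show (S.gp τ u l ∧ S.FP (S.h l + d τ) u ∧ Nat.size (S.h l) = g ∧ 2 ^ (i - 1) < S.ds (!τ) l u) ↔
      (S.gp τ u l ∧ S.FP (S.h l + d τ) u ∧ Nat.size (S.h l) = g) ∧ 2 ^ (i - 1) < S.ds (!τ) l u by tauto),
      ind_and (S.gp τ u l ∧ S.FP (S.h l + d τ) u ∧ Nat.size (S.h l) = g) (2 ^ (i - 1) < S.ds (!τ) l u)]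
    ring

theorem PW_self (ρ₁ : ℝ≥0∞) (τ : Bool) (g : ℕ) : S.PW ρ₁ τ g g = S.TAs τ g := by
  rw [PW_eq, Nat.sub_self, pow_zero, one_mul, Finset.Ioc_self, Finset.sum_empty, add_zero]

theorem pairs_le {wd : S.B → ℕ} {KG : ℕ} {K ρ₁ ρ₂ ρ B : ℝ≥0∞} (hG : S.Gyp KG) (hb : ∀ N, S.b N ≠ 0)
    (hH : S.Hit wd K ρ₁ ρ₂) (hρ : 2⁻¹ ≤ ρ) (h1 : ρ ≤ 1) (h10 : ρ₁ ≠ 0) (h11 : ρ₁ ≤ 1) (hB : 1 ≤ B) (τ : Bool) (g j : ℕ)
    (hA : S.TA g ≤ B) (hT : ∀ k, g ≤ k → S.TK wd g k ≤ B * ρ ^ (k - g)) :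
    S.PW ρ₁ τ g j ≤ C2 KG ρ ρ₁ * B * ρ₁ ^ (j - g) := by
  have h0 : ρ ≠ 0 := fun h => by
    rw [h] at hρ
    exact absurd (le_antisymm hρ bot_le) (by norm_num)
  have h2 : ∀ i ∈ Ioc g j, ρ₁ ^ (j - i) * S.MM τ g i ≤ (2 * KG + 1) * B * (ρ₁ ^ (j - i) * ρ ^ (i - 2 - g)) := by
    intro i hi
    rw [Finset.mem_Ioc] at hi
    have h3 : S.MM τ g i ≤ (2 * KG + 1) * B * ρ ^ (i - 2 - g) := by
      rcases Nat.lt_or_ge i (g + 2) with h4 | h4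
      · have e1 : i - 2 - g = 0 := by omega
        rw [e1, pow_zero, mul_one]
        calc S.MM τ g i ≤ B := (MM_le_TAs τ g i).trans ((TAs_le τ g).trans hA)
          _ = 1 * B := (one_mul B).symm
          _ ≤ (2 * KG + 1) * B := mul_le_mul' le_add_self le_rfl
      · refine (MM_le hG hb hH hρ τ h4).trans ?_
        calc 2 * (KG : ℝ≥0∞) * ρ ^ (i - 2 - g) + S.TKs wd τ g (i - 2)
            ≤ 2 * KG * ρ ^ (i - 2 - g) * 1 + B * ρ ^ (i - 2 - g) := by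
              rw [mul_one]
              exact add_le_add le_rfl ((TKs_le wd τ g (i - 2)).trans (hT (i - 2) (by omega)))
          _ ≤ 2 * KG * ρ ^ (i - 2 - g) * B + B * ρ ^ (i - 2 - g) := by gcongr
          _ = (2 * KG + 1) * B * ρ ^ (i - 2 - g) := by ring
    calc ρ₁ ^ (j - i) * S.MM τ g i ≤ ρ₁ ^ (j - i) * ((2 * KG + 1) * B * ρ ^ (i - 2 - g)) := mul_le_mul' le_rfl h3
      _ = (2 * KG + 1) * B * (ρ₁ ^ (j - i) * ρ ^ (i - 2 - g)) := by ring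
  rw [PW_eq]
  calc ρ₁ ^ (j - g) * S.TAs τ g + ∑ i ∈ Ioc g j, ρ₁ ^ (j - i) * S.MM τ g i
      ≤ ρ₁ ^ (j - g) * B + (2 * KG + 1) * B * (CG ρ ρ₁ * ρ₁ ^ (j - g)) := by
        refine add_le_add (mul_le_mul' le_rfl ((TAs_le τ g).trans hA)) ?_
        refine (Finset.sum_le_sum h2).trans ?_
        rw [← Finset.mul_sum]
        exact mul_le_mul' le_rfl (geo_le h0 h1 h10 h11 g j)
    _ = C2 KG ρ ρ₁ * B * ρ₁ ^ (j - g) := by unfold C2; ring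

end Sys

end Pool.Agent.HEP
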